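import Mathlib

set_option autoImplicit false

/-! Chapter D, D5: the arithmetic of the proof of the a priori bound (maximum principle). -/

namespace Pool.Agent.H68.Q1

open Finset

/-- the record of `m n / n ^ (2/3)` up to `N` -/
noncomputable def recd (m : ℕ → ℝ) (N : ℕ) : ℝ :=
  (range (N + 1)).sup' ⟨0, by simp⟩ (fun n => m n / (n : ℝ) ^ (2 / 3 : ℝ))

lemma recd_nonneg (m : ℕ → ℝ) (N : ℕ) : 0 ≤ recd m N := by
  have h := le_sup' (fun n : ℕ => m n / (n : ℝ) ^ (2 / 3 : ℝ)) (show 0 ∈ range (N + 1) by simp)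
  have h0 : (0 : ℝ) ^ (2 / 3 : ℝ) = 0 := Real.zero_rpow (by norm_num)
  simp only [Nat.cast_zero, h0, div_zero] at h
  exact h

lemma recd_mono (m : ℕ → ℝ) {N N' : ℕ} (h : N ≤ N') : recd m N ≤ recd m N' := by
  unfold recd
  apply sup'_mono
  intro x hx
  simp only [mem_range] at hx ⊢
  omega

lemma le_recd (m : ℕ → ℝ) {n N : ℕ} (h1 : 1 ≤ n) (h : n ≤ N) :
    m n ≤ recd m N * (n : ℝ) ^ (2 / 3 : ℝ) := by
  have h2 := le_sup' (fun n : ℕ => m n / (n : ℝ) ^ (2 / 3 : ℝ))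
    (show n ∈ range (N + 1) by simp only [mem_range]; omega)
  have hp : (0 : ℝ) < (n : ℝ) ^ (2 / 3 : ℝ) := Real.rpow_pos_of_pos (by exact_mod_cast h1) _
  exact (div_le_iff₀ hp).1 h2

lemma recd_att (m : ℕ → ℝ) (N : ℕ) :
    ∃ n ≤ N, recd m N = m n / (n : ℝ) ^ (2 / 3 : ℝ) := by
  obtain ⟨n, hn, h⟩ := exists_mem_eq_sup' (s := range (N + 1)) ⟨0, by simp⟩
    (fun n : ℕ => m n / (n : ℝ) ^ (2 / 3 : ℝ))
  exact ⟨n, by simp only [mem_range] at hn; omega, h⟩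

/-- If `m N` is at most half of the record plus a constant, the record is bounded. -/
lemma bdd_of_half {m : ℕ → ℝ} {K : ℝ} {N0 : ℕ}
    (h : ∀ N : ℕ, N0 ≤ N → m N ≤ (1 / 2 * recd m N + K) * (N : ℝ) ^ (2 / 3 : ℝ)) :
    ∃ C : ℝ, ∀ N, recd m N ≤ C := by
  refine ⟨max (2 * |K|) (recd m N0), fun N => ?_⟩
  obtain ⟨n, hn, he⟩ := recd_att m N
  rcases Nat.eq_zero_or_pos n with h0 | h0
  · subst h0
    have : (0 : ℝ) ^ (2 / 3 : ℝ) = 0 := Real.zero_rpow (by norm_num)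
    rw [he]
    simp only [Nat.cast_zero, this, div_zero]
    exact le_max_of_le_left (by positivity)
  · have hp : (0 : ℝ) < (n : ℝ) ^ (2 / 3 : ℝ) := Real.rpow_pos_of_pos (by exact_mod_cast h0) _
    by_cases hN : N0 ≤ n
    · have h1 := (div_le_iff₀ hp).2 (h n hN)
      rw [← he] at h1
      have h2 := recd_mono m hn
      have h3 := le_abs_self K
      exact le_max_of_le_left (by linarith)
    · rw [he]
      refine le_max_of_le_right ((div_le_iff₀ hp).2 (le_recd m h0 (by omega)))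

/-- **The maximum principle step**: the sup `S` over the boundary differences is small compared to the
record. -/
theorem S_small {m : ℕ → ℝ} {S : ℝ → ℕ → ℝ}
    (hMP : ∃ C : ℝ, 0 ≤ C ∧ ∀ δ0 : ℝ, 0 < δ0 → ∃ c1 : ℝ, 0 < c1 ∧ ∀ κ : ℝ, 0 < κ → ∀ ε : ℝ, 0 < ε →
      ∃ η0 : ℝ, 0 < η0 ∧ ∀ η : ℝ, 0 < η → η < η0 → ∃ (N0 : ℕ) (Cη : ℝ), ∀ N : ℕ, N0 ≤ N →
        S η N ≤ Cη * (N : ℝ) ^ (2 / 3 : ℝ) + max (C * recd m N * (δ0 * N) ^ (2 / 3 : ℝ))
          ((1 - c1) * S η N + (C * κ ^ (2 / 3 : ℝ) + ε) * recd m N * (N : ℝ) ^ (2 / 3 : ℝ))) :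
    ∀ ε : ℝ, 0 < ε → ∃ η0 : ℝ, 0 < η0 ∧ ∀ η : ℝ, 0 < η → η < η0 → ∃ (N0 : ℕ) (Cη : ℝ),
      ∀ N : ℕ, N0 ≤ N → S η N ≤ (ε * recd m N + Cη) * (N : ℝ) ^ (2 / 3 : ℝ) := by
  intro ε hε
  obtain ⟨C, hC, h⟩ := hMP
  set δ0 : ℝ := (ε / (C + 1)) ^ (3 / 2 : ℝ) with hδ0
  have hq : 0 < ε / (C + 1) := by positivity
  have hδ : 0 < δ0 := Real.rpow_pos_of_pos hq _
  have hδp : δ0 ^ (2 / 3 : ℝ) = ε / (C + 1) := by
    rw [hδ0, ← Real.rpow_mul hq.le]; norm_num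
  obtain ⟨c1, hc1, h⟩ := h δ0 hδ
  set κ : ℝ := (ε * c1 / 2 / (C + 1)) ^ (3 / 2 : ℝ) with hκ0
  have hq' : 0 < ε * c1 / 2 / (C + 1) := by positivity
  have hκ : 0 < κ := Real.rpow_pos_of_pos hq' _
  have hκp : κ ^ (2 / 3 : ℝ) = ε * c1 / 2 / (C + 1) := by
    rw [hκ0, ← Real.rpow_mul hq'.le]; norm_num
  obtain ⟨η0, hη0, h⟩ := h κ hκ (ε * c1 / 2) (by positivity)
  refine ⟨η0, hη0, fun η h1 h2 => ?_⟩
  obtain ⟨N0, Cη, h⟩ := h η h1 h2
  refine ⟨N0, |Cη| + |Cη| / c1, fun N hN => ?_⟩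
  have h3 := h N hN
  set P : ℝ := (N : ℝ) ^ (2 / 3 : ℝ) with hP
  have hP0 : 0 ≤ P := by positivity
  have hr := recd_nonneg m N
  set r : ℝ := recd m N with hrr
  have hC1 : C * (ε / (C + 1)) ≤ ε := by
    rw [mul_div_assoc', div_le_iff₀ (by positivity)]
    nlinarith
  have hC2 : C * (ε * c1 / 2 / (C + 1)) ≤ ε * c1 / 2 := by
    rw [mul_div_assoc', div_le_iff₀ (by positivity)]
    have : 0 ≤ ε * c1 / 2 := by positivity
    nlinarith
  rw [Real.mul_rpow hδ.le (Nat.cast_nonneg _), hδp, hκp] at h3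
  have ha : C * r * (ε / (C + 1) * P) ≤ ε * r * P := by
    have : C * r * (ε / (C + 1) * P) = (C * (ε / (C + 1))) * (r * P) := by ring
    rw [this]
    have h4 : 0 ≤ r * P := by positivity
    nlinarith
  have hb : (C * (ε * c1 / 2 / (C + 1)) + ε * c1 / 2) * r * P ≤ ε * c1 * r * P := by
    have h4 : 0 ≤ r * P := by positivity
    nlinarith
  have hK : Cη * P ≤ |Cη| * P := mul_le_mul_of_nonneg_right (le_abs_self _) hP0
  have hK0 : 0 ≤ |Cη| * P := by positivity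
  have hK1 : 0 ≤ |Cη| / c1 * P := by positivity
  rcases max_choice (C * r * (ε / (C + 1) * P))
    ((1 - c1) * S η N + (C * (ε * c1 / 2 / (C + 1)) + ε * c1 / 2) * r * P) with hm | hm
  · rw [hm] at h3
    nlinarith
  · rw [hm] at h3
    have h5 : c1 * S η N ≤ |Cη| * P + ε * c1 * r * P := by linarith
    have h6 : S η N ≤ |Cη| / c1 * P + ε * r * P := by
      have : c1 * (|Cη| / c1 * P + ε * r * P) = |Cη| * P + ε * c1 * r * P := by
        field_simp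
      by_contra hc
      rw [not_le] at hc
      have := mul_lt_mul_of_pos_left hc hc1
      linarith
    nlinarith

/-- **AP from the first step and the maximum principle step.** -/
theorem ap_abs {m : ℕ → ℝ} {S : ℝ → ℕ → ℝ}
    (hFS : ∃ C a : ℝ, 0 ≤ C ∧ 1 / 3 < a ∧ ∀ δ : ℝ, 0 < δ → δ < 1 → ∀ ε : ℝ, 0 < ε →
      ∃ η0 : ℝ, 0 < η0 ∧ ∀ η : ℝ, 0 < η → η < η0 → ∃ (N0 : ℕ) (Cη : ℝ), ∀ N : ℕ, N0 ≤ N →
        m N ≤ Cη * (N : ℝ) ^ (2 / 3 : ℝ) +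
          C / δ * ((C * δ ^ a + ε) * recd m N * (δ * N) ^ (2 / 3 : ℝ) + 2 * S η N))
    (hMP : ∃ C : ℝ, 0 ≤ C ∧ ∀ δ0 : ℝ, 0 < δ0 → ∃ c1 : ℝ, 0 < c1 ∧ ∀ κ : ℝ, 0 < κ → ∀ ε : ℝ, 0 < ε →
      ∃ η0 : ℝ, 0 < η0 ∧ ∀ η : ℝ, 0 < η → η < η0 → ∃ (N0 : ℕ) (Cη : ℝ), ∀ N : ℕ, N0 ≤ N →
        S η N ≤ Cη * (N : ℝ) ^ (2 / 3 : ℝ) + max (C * recd m N * (δ0 * N) ^ (2 / 3 : ℝ))
          ((1 - c1) * S η N + (C * κ ^ (2 / 3 : ℝ) + ε) * recd m N * (N : ℝ) ^ (2 / 3 : ℝ))) :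
    ∃ C : ℝ, 0 < C ∧ ∀ N : ℕ, 1 ≤ N → m N ≤ C * (N : ℝ) ^ (2 / 3 : ℝ) := by
  obtain ⟨C, a, hC, ha, hF⟩ := hFS
  -- choice of δ
  obtain ⟨δ, hδ0, hδ1, hδ⟩ : ∃ δ : ℝ, 0 < δ ∧ δ < 1 ∧ C * C * δ ^ (a - 1 / 3) ≤ 1 / 8 := by
    have hq : 0 < (1 / 8) / (C * C + 1) := by positivity
    have ha' : 0 < a - 1 / 3 := by linarith
    refine ⟨min (1 / 2) (((1 / 8) / (C * C + 1)) ^ (1 / (a - 1 / 3))), lt_min (by norm_num)
      (Real.rpow_pos_of_pos hq _), lt_of_le_of_lt (min_le_left _ _) (by norm_num), ?_⟩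
    have h1 : (min (1 / 2) (((1 / 8) / (C * C + 1)) ^ (1 / (a - 1 / 3)))) ^ (a - 1 / 3) ≤
        (1 / 8) / (C * C + 1) := by
      calc _ ≤ ((((1 : ℝ) / 8) / (C * C + 1)) ^ (1 / (a - 1 / 3))) ^ (a - 1 / 3) := by
            apply Real.rpow_le_rpow _ (min_le_right _ _) ha'.le
            exact le_min (by norm_num) (Real.rpow_pos_of_pos hq _).le
        _ = _ := by
            rw [← Real.rpow_mul hq.le, one_div_mul_cancel ha'.ne', Real.rpow_one]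
    calc _ ≤ C * C * ((1 / 8) / (C * C + 1)) := mul_le_mul_of_nonneg_left h1 (by positivity)
      _ ≤ 1 / 8 := by
          rw [mul_div_assoc', div_le_iff₀ (by positivity)]
          nlinarith
  have hδp : (0 : ℝ) < δ ^ (2 / 3 : ℝ) := Real.rpow_pos_of_pos hδ0 _
  -- ε1
  set ε1 : ℝ := δ / (δ ^ (2 / 3 : ℝ) * 8 * (C + 1)) with hε1
  have hε1p : 0 < ε1 := by positivity
  obtain ⟨η1, hη1, hF⟩ := hF δ hδ0 hδ1 ε1 hε1p
  set ε2 : ℝ := δ / (8 * (C + 1)) with hε2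
  have hε2p : 0 < ε2 := by positivity
  obtain ⟨η2, hη2, hS⟩ := S_small hMP ε2 hε2p
  obtain ⟨N1, C1, hF⟩ := hF (min η1 η2 / 2) (by positivity)
    (lt_of_lt_of_le (half_lt_self (lt_min hη1 hη2)) (min_le_left _ _))
  obtain ⟨N2, C2, hS⟩ := hS (min η1 η2 / 2) (by positivity)
    (lt_of_lt_of_le (half_lt_self (lt_min hη1 hη2)) (min_le_right _ _))
  have key : ∀ N : ℕ, max N1 N2 ≤ N →
      m N ≤ (1 / 2 * recd m N + (|C1| + 2 * (C / δ) * |C2|)) * (N : ℝ) ^ (2 / 3 : ℝ) := by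
    intro N hN
    have h1 := hF N (le_trans (le_max_left _ _) hN)
    have h2 := hS N (le_trans (le_max_right _ _) hN)
    set P : ℝ := (N : ℝ) ^ (2 / 3 : ℝ) with hP
    have hP0 : 0 ≤ P := by positivity
    have hr := recd_nonneg m N
    set r : ℝ := recd m N with hrr
    set s : ℝ := S (min η1 η2 / 2) N with hs
    rw [Real.mul_rpow hδ0.le (Nat.cast_nonneg _)] at h1
    have hrP : 0 ≤ r * P := by positivity
    have e1 : C / δ * ((C * δ ^ a + ε1) * r * (δ ^ (2 / 3 : ℝ) * P)) =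
        (C / δ * (C * δ ^ a) * δ ^ (2 / 3 : ℝ) + C / δ * ε1 * δ ^ (2 / 3 : ℝ)) * (r * P) := by ring
    have e2 : C / δ * (C * δ ^ a) * δ ^ (2 / 3 : ℝ) ≤ 1 / 8 := by
      have : C / δ * (C * δ ^ a) * δ ^ (2 / 3 : ℝ) = C * C * δ ^ (a - 1 / 3) := by
        have h5 : a - 1 / 3 = a + 2 / 3 - 1 := by ring
        rw [h5, Real.rpow_sub hδ0, Real.rpow_add hδ0, Real.rpow_one]
        ring
      rw [this]; exact hδ
    have e3 : C / δ * ε1 * δ ^ (2 / 3 : ℝ) ≤ 1 / 8 := by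
      have : C / δ * ε1 * δ ^ (2 / 3 : ℝ) = C / (8 * (C + 1)) := by
        rw [hε1]
        field_simp
      rw [this, div_le_iff₀ (by positivity)]
      linarith
    have e4 : C / δ * (2 * s) ≤ (1 / 4 * r + 2 * (C / δ) * |C2|) * P := by
      have h6 : s ≤ (ε2 * r + |C2|) * P :=
        h2.trans (mul_le_mul_of_nonneg_right (by linarith [le_abs_self C2]) hP0)
      have h7 : C / δ * (2 * s) ≤ C / δ * (2 * ((ε2 * r + |C2|) * P)) := by
        apply mul_le_mul_of_nonneg_left _ (by positivity)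
        linarith
      have h8 : C / δ * (2 * ((ε2 * r + |C2|) * P)) =
          2 * (C / δ * ε2) * (r * P) + 2 * (C / δ) * |C2| * P := by ring
      have h9 : C / δ * ε2 ≤ 1 / 8 := by
        have : C / δ * ε2 = C / (8 * (C + 1)) := by rw [hε2]; field_simp
        rw [this, div_le_iff₀ (by positivity)]
        linarith
      rw [h8] at h7
      nlinarith
    have e5 : C / δ * ((C * δ ^ a + ε1) * r * (δ ^ (2 / 3 : ℝ) * P) + 2 * s) =
        C / δ * ((C * δ ^ a + ε1) * r * (δ ^ (2 / 3 : ℝ) * P)) + C / δ * (2 * s) := by ring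
    rw [e5, e1] at h1
    have e6 : C1 * P ≤ |C1| * P := mul_le_mul_of_nonneg_right (le_abs_self _) hP0
    nlinarith
  obtain ⟨B, hB⟩ := bdd_of_half key
  refine ⟨|B| + 1, by positivity, fun N hN => ?_⟩
  have h1 := le_recd m hN le_rfl
  have hP0 : 0 ≤ (N : ℝ) ^ (2 / 3 : ℝ) := by positivity
  calc m N ≤ recd m N * (N : ℝ) ^ (2 / 3 : ℝ) := h1
    _ ≤ (|B| + 1) * (N : ℝ) ^ (2 / 3 : ℝ) :=
      mul_le_mul_of_nonneg_right (by linarith [hB N, le_abs_self B]) hP0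

/-- **Dyadic sum along a segment**: `h t` is the value at the point at distance `t` from the end. -/
theorem seg_sum {h : ℕ → ℂ} {r : ℝ} {t0 : ℕ} (hr : 0 ≤ r) (h64 : 64 ≤ t0)
    (H : ∀ t s : ℕ, s ≤ t / 8 → t0 ≤ t - s → ‖h t - h (t - s)‖ ≤ r * (t : ℝ) ^ (2 / 3 : ℝ)) :
    ∀ t : ℕ, t0 ≤ t → ‖h t - h t0‖ ≤ 32 * r * (t : ℝ) ^ (2 / 3 : ℝ) := by
  intro t
  induction t using Nat.strong_induction_on with
  | _ t ih =>
    intro ht
    have htp : (0 : ℝ) < t := by exact_mod_cast (by omega : 0 < t)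
    have hP : 0 < (t : ℝ) ^ (2 / 3 : ℝ) := Real.rpow_pos_of_pos htp _
    by_cases hs : t - t / 8 < t0
    · have h1 := H t (t - t0) (by omega) (by omega)
      rw [show t - (t - t0) = t0 by omega] at h1
      have : 0 ≤ r * (t : ℝ) ^ (2 / 3 : ℝ) := by positivity
      linarith
    · rw [not_lt] at hs
      have h1 := H t (t / 8) le_rfl hs
      have h2 := ih (t - t / 8) (by omega) hs
      have h3 : ((t - t / 8 : ℕ) : ℝ) ≤ 29 / 32 * t := by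
        have h4 : 32 * (t - t / 8) ≤ 29 * t := by omega
        have h5 : (32 : ℝ) * ((t - t / 8 : ℕ) : ℝ) ≤ 29 * t := by exact_mod_cast h4
        linarith
      have h6 : ((t - t / 8 : ℕ) : ℝ) ^ (2 / 3 : ℝ) ≤ 31 / 32 * (t : ℝ) ^ (2 / 3 : ℝ) := by
        calc ((t - t / 8 : ℕ) : ℝ) ^ (2 / 3 : ℝ) ≤ (29 / 32 * t) ^ (2 / 3 : ℝ) :=
              Real.rpow_le_rpow (Nat.cast_nonneg _) h3 (by norm_num)
          _ = (29 / 32 : ℝ) ^ (2 / 3 : ℝ) * (t : ℝ) ^ (2 / 3 : ℝ) :=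
              Real.mul_rpow (by norm_num) htp.le
          _ ≤ 31 / 32 * (t : ℝ) ^ (2 / 3 : ℝ) := by
              apply mul_le_mul_of_nonneg_right _ hP.le
              have h7 : (29 / 32 : ℝ) ≤ (31 / 32) ^ (3 / 2 : ℝ) := by
                have h8 : (31 / 32 : ℝ) ^ (3 / 2 : ℝ) = 31 / 32 * (31 / 32) ^ (1 / 2 : ℝ) := by
                  rw [show (3 / 2 : ℝ) = 1 + 1 / 2 by norm_num, Real.rpow_add (by norm_num),
                    Real.rpow_one]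
                rw [h8, ← Real.sqrt_eq_rpow]
                have h9 : (30 / 32 : ℝ) ≤ Real.sqrt (31 / 32) := Real.le_sqrt_of_sq_le (by norm_num)
                nlinarith
              calc (29 / 32 : ℝ) ^ (2 / 3 : ℝ) ≤ ((31 / 32 : ℝ) ^ (3 / 2 : ℝ)) ^ (2 / 3 : ℝ) :=
                    Real.rpow_le_rpow (by norm_num) h7 (by norm_num)
                _ = 31 / 32 := by
                    rw [← Real.rpow_mul (by norm_num)]; norm_num
      have h10 : ‖h t - h t0‖ ≤ ‖h t - h (t - t / 8)‖ + ‖h (t - t / 8) - h t0‖ := by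
        have : h t - h t0 = (h t - h (t - t / 8)) + (h (t - t / 8) - h t0) := by ring
        rw [this]; exact norm_add_le _ _
      have h11 : 32 * r * ((t - t / 8 : ℕ) : ℝ) ^ (2 / 3 : ℝ) ≤
          32 * r * (31 / 32 * (t : ℝ) ^ (2 / 3 : ℝ)) :=
        mul_le_mul_of_nonneg_left h6 (by positivity)
      linarith

end Pool.Agent.H68.Q1
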