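import Mathlib
import Pool.Agent.H68.Q1.APAbs

set_option autoImplicit false

/-! Chapter D, D5, version 2: the arithmetic of the a priori bound with `S : κ → N → ℝ`. -/

namespace Pool.Agent.H68.Q1

open Finset

/-- **The maximum principle step**, version with `κ`. -/
theorem S_small2 {m : ℕ → ℝ} {S : ℝ → ℕ → ℝ}
    (hMP : ∃ C : ℝ, 0 ≤ C ∧ ∀ δ0 : ℝ, 0 < δ0 → δ0 < 1 → ∃ c1 : ℝ, 0 < c1 ∧ ∃ κ0 : ℝ, 0 < κ0 ∧
      ∀ κ : ℝ, 0 < κ → κ < κ0 → ∀ ε : ℝ, 0 < ε → ∃ (N0 : ℕ) (C' : ℝ), ∀ N : ℕ, N0 ≤ N →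
        S κ N ≤ C' * (N : ℝ) ^ (2 / 3 : ℝ) + max (C * recd m N * (δ0 * N) ^ (2 / 3 : ℝ))
          ((1 - c1) * S κ N) + (C * κ ^ (2 / 3 : ℝ) + ε) * recd m N * (N : ℝ) ^ (2 / 3 : ℝ)) :
    ∀ ε : ℝ, 0 < ε → ∃ κ0 : ℝ, 0 < κ0 ∧ ∀ κ : ℝ, 0 < κ → κ < κ0 → ∃ (N0 : ℕ) (C' : ℝ),
      ∀ N : ℕ, N0 ≤ N → S κ N ≤ (ε * recd m N + C') * (N : ℝ) ^ (2 / 3 : ℝ) := by
  intro ε hε
  obtain ⟨C, hC, h⟩ := hMP
  -- choice of `δ0`
  obtain ⟨δ0, hδ, hδ1, hδp⟩ : ∃ δ0 : ℝ, 0 < δ0 ∧ δ0 < 1 ∧ C * δ0 ^ (2 / 3 : ℝ) ≤ ε / 2 := by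
    have hq : 0 < ε / 2 / (C + 1) := by positivity
    refine ⟨min (1 / 2) ((ε / 2 / (C + 1)) ^ (3 / 2 : ℝ)),
      lt_min (by norm_num) (Real.rpow_pos_of_pos hq _),
      lt_of_le_of_lt (min_le_left _ _) (by norm_num), ?_⟩
    have h1 : (min (1 / 2) ((ε / 2 / (C + 1)) ^ (3 / 2 : ℝ))) ^ (2 / 3 : ℝ) ≤ ε / 2 / (C + 1) := by
      calc _ ≤ ((ε / 2 / (C + 1)) ^ (3 / 2 : ℝ)) ^ (2 / 3 : ℝ) :=
            Real.rpow_le_rpow (le_min (by norm_num) (Real.rpow_pos_of_pos hq _).le)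
              (min_le_right _ _) (by norm_num)
        _ = _ := by rw [← Real.rpow_mul hq.le]; norm_num
    calc _ ≤ C * (ε / 2 / (C + 1)) := mul_le_mul_of_nonneg_left h1 hC
      _ ≤ ε / 2 := by
          rw [mul_div_assoc', div_le_iff₀ (by positivity)]
          nlinarith
  obtain ⟨c1', hc1', κ1, hκ1, h⟩ := h δ0 hδ hδ1
  set c1 : ℝ := min c1' 1 with hc1d
  have hc1 : 0 < c1 := lt_min hc1' one_pos
  have hc1le : c1 ≤ 1 := min_le_right _ _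
  have hc1le' : c1 ≤ c1' := min_le_left _ _
  have hq' : 0 < ε * c1 / 4 / (C + 1) := by positivity
  refine ⟨min κ1 ((ε * c1 / 4 / (C + 1)) ^ (3 / 2 : ℝ)), lt_min hκ1 (Real.rpow_pos_of_pos hq' _),
    fun κ hκ hκ' => ?_⟩
  have hκp : C * κ ^ (2 / 3 : ℝ) ≤ ε * c1 / 4 := by
    have h1 : κ ^ (2 / 3 : ℝ) ≤ ε * c1 / 4 / (C + 1) := by
      calc κ ^ (2 / 3 : ℝ) ≤ ((ε * c1 / 4 / (C + 1)) ^ (3 / 2 : ℝ)) ^ (2 / 3 : ℝ) :=
            Real.rpow_le_rpow hκ.le (hκ'.le.trans (min_le_right _ _)) (by norm_num)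
        _ = _ := by rw [← Real.rpow_mul hq'.le]; norm_num
    calc _ ≤ C * (ε * c1 / 4 / (C + 1)) := mul_le_mul_of_nonneg_left h1 hC
      _ ≤ ε * c1 / 4 := by
          rw [mul_div_assoc', div_le_iff₀ (by positivity)]
          have : 0 ≤ ε * c1 / 4 := by positivity
          nlinarith
  obtain ⟨N0, C', h⟩ := h κ hκ (hκ'.trans_le (min_le_left _ _)) (ε * c1 / 4) (by positivity)
  refine ⟨N0, |C'| + |C'| / c1, fun N hN => ?_⟩
  have h3 := h N hN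
  set P : ℝ := (N : ℝ) ^ (2 / 3 : ℝ) with hP
  have hP0 : 0 ≤ P := by positivity
  have hr := recd_nonneg m N
  set r : ℝ := recd m N with hrr
  have hrP : 0 ≤ r * P := by positivity
  rw [Real.mul_rpow hδ.le (Nat.cast_nonneg _)] at h3
  have ha : C * r * (δ0 ^ (2 / 3 : ℝ) * P) ≤ ε / 2 * (r * P) := by
    have : C * r * (δ0 ^ (2 / 3 : ℝ) * P) = (C * δ0 ^ (2 / 3 : ℝ)) * (r * P) := by ring
    rw [this]
    exact mul_le_mul_of_nonneg_right hδp hrP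
  have hb : (C * κ ^ (2 / 3 : ℝ) + ε * c1 / 4) * r * P ≤ ε * c1 / 2 * (r * P) := by
    have : (C * κ ^ (2 / 3 : ℝ) + ε * c1 / 4) * r * P =
      (C * κ ^ (2 / 3 : ℝ) + ε * c1 / 4) * (r * P) := by ring
    rw [this]
    exact mul_le_mul_of_nonneg_right (by linarith) hrP
  have hK : C' * P ≤ |C'| * P := mul_le_mul_of_nonneg_right (le_abs_self _) hP0
  have hK0 : 0 ≤ |C'| * P := by positivity
  have hK1 : 0 ≤ |C'| / c1 * P := by positivity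
  have hεc : ε * c1 / 2 * (r * P) ≤ ε / 2 * (r * P) := by
    apply mul_le_mul_of_nonneg_right _ hrP
    nlinarith
  rcases max_choice (C * r * (δ0 ^ (2 / 3 : ℝ) * P)) ((1 - c1') * S κ N) with hm | hm
  · rw [hm] at h3
    nlinarith
  · rw [hm] at h3
    by_cases hS : S κ N ≤ 0
    · have : 0 ≤ (ε * r + (|C'| + |C'| / c1)) * P := by positivity
      linarith
    · rw [not_le] at hS
      have h4 : c1 * S κ N ≤ c1' * S κ N := mul_le_mul_of_nonneg_right hc1le' hS.le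
      have h5 : c1 * S κ N ≤ |C'| * P + ε * c1 * (r * P) := by
        have : 0 ≤ ε * c1 / 2 * (r * P) := by positivity
        nlinarith
      have h6 : S κ N ≤ |C'| / c1 * P + ε * (r * P) := by
        have : c1 * (|C'| / c1 * P + ε * (r * P)) = |C'| * P + ε * c1 * (r * P) := by
          field_simp
        by_contra hc
        rw [not_le] at hc
        have := mul_lt_mul_of_pos_left hc hc1
        linarith
      nlinarith

/-- **AP from the first step and the maximum principle step**, version with `κ`. -/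
theorem ap_abs2 {m : ℕ → ℝ} {S : ℝ → ℕ → ℝ}
    (hFS : ∃ C a : ℝ, 0 ≤ C ∧ 1 / 3 < a ∧ ∀ δ : ℝ, 0 < δ → δ < 1 → ∃ κ0 : ℝ, 0 < κ0 ∧
      ∀ κ : ℝ, 0 < κ → κ < κ0 → ∀ ε : ℝ, 0 < ε → ∃ (N0 : ℕ) (C' : ℝ), ∀ N : ℕ, N0 ≤ N →
        m N ≤ C' * (N : ℝ) ^ (2 / 3 : ℝ) +
          C / δ * (C * δ ^ a * recd m N * (δ * N) ^ (2 / 3 : ℝ) +
            (C * κ ^ (2 / 3 : ℝ) + ε) * recd m N * (N : ℝ) ^ (2 / 3 : ℝ) + 2 * S κ N))
    (hMP : ∃ C : ℝ, 0 ≤ C ∧ ∀ δ0 : ℝ, 0 < δ0 → δ0 < 1 → ∃ c1 : ℝ, 0 < c1 ∧ ∃ κ0 : ℝ, 0 < κ0 ∧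
      ∀ κ : ℝ, 0 < κ → κ < κ0 → ∀ ε : ℝ, 0 < ε → ∃ (N0 : ℕ) (C' : ℝ), ∀ N : ℕ, N0 ≤ N →
        S κ N ≤ C' * (N : ℝ) ^ (2 / 3 : ℝ) + max (C * recd m N * (δ0 * N) ^ (2 / 3 : ℝ))
          ((1 - c1) * S κ N) + (C * κ ^ (2 / 3 : ℝ) + ε) * recd m N * (N : ℝ) ^ (2 / 3 : ℝ)) :
    ∃ C : ℝ, 0 < C ∧ ∀ N : ℕ, 1 ≤ N → m N ≤ C * (N : ℝ) ^ (2 / 3 : ℝ) := by
  obtain ⟨C, a, hC, ha, hF⟩ := hFS
  -- choice of δ
  obtain ⟨δ, hδ0, hδ1, hδ⟩ : ∃ δ : ℝ, 0 < δ ∧ δ < 1 ∧ C * C * δ ^ (a - 1 / 3) ≤ 1 / 8 := by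
    have hq : 0 < (1 / 8) / (C * C + 1) := by positivity
    have ha' : 0 < a - 1 / 3 := by linarith
    refine ⟨min (1 / 2) (((1 / 8) / (C * C + 1)) ^ (1 / (a - 1 / 3))), lt_min (by norm_num)
      (Real.rpow_pos_of_pos hq _), lt_of_le_of_lt (min_le_left _ _) (by norm_num), ?_⟩
    have h1 : (min (1 / 2) (((1 / 8) / (C * C + 1)) ^ (1 / (a - 1 / 3)))) ^ (a - 1 / 3) ≤
        (1 / 8) / (C * C + 1) := by
      calc _ ≤ ((((1 : ℝ) / 8) / (C * C + 1)) ^ (1 / (a - 1 / 3))) ^ (a - 1 / 3) := by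
            apply Real.rpow_le_rpow _ (min_le_right _ _) ha'.le
            exact le_min (by norm_num) (Real.rpow_pos_of_pos hq _).le
        _ = _ := by
            rw [← Real.rpow_mul hq.le, one_div_mul_cancel ha'.ne', Real.rpow_one]
    calc _ ≤ C * C * ((1 / 8) / (C * C + 1)) := mul_le_mul_of_nonneg_left h1 (by positivity)
      _ ≤ 1 / 8 := by
          rw [mul_div_assoc', div_le_iff₀ (by positivity)]
          nlinarith
  obtain ⟨κ1, hκ1, hF⟩ := hF δ hδ0 hδ1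
  set ε2 : ℝ := δ / (16 * (C + 1)) with hε2
  have hε2p : 0 < ε2 := by positivity
  have hCε : C / δ * ε2 ≤ 1 / 16 := by
    have : C / δ * ε2 = C / (16 * (C + 1)) := by rw [hε2]; field_simp
    rw [this, div_le_iff₀ (by positivity)]
    linarith
  obtain ⟨κ2, hκ2, hS⟩ := S_small2 hMP ε2 hε2p
  -- choice of κ
  have hq3 : 0 < ε2 / (C + 1) := by positivity
  obtain ⟨κ, hκ, hκa, hκb, hκc⟩ : ∃ κ : ℝ, 0 < κ ∧ κ < κ1 ∧ κ < κ2 ∧
      C * κ ^ (2 / 3 : ℝ) ≤ ε2 := by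
    set κ3 : ℝ := (ε2 / (C + 1)) ^ (3 / 2 : ℝ) with hκ3
    have hκ3p : 0 < κ3 := Real.rpow_pos_of_pos hq3 _
    have hmin : 0 < min (min κ1 κ2) κ3 := lt_min (lt_min hκ1 hκ2) hκ3p
    refine ⟨min (min κ1 κ2) κ3 / 2, by positivity,
      (half_lt_self hmin).trans_le ((min_le_left _ _).trans (min_le_left _ _)),
      (half_lt_self hmin).trans_le ((min_le_left _ _).trans (min_le_right _ _)), ?_⟩
    have h1 : (min (min κ1 κ2) κ3 / 2) ^ (2 / 3 : ℝ) ≤ ε2 / (C + 1) := by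
      calc (min (min κ1 κ2) κ3 / 2) ^ (2 / 3 : ℝ) ≤ κ3 ^ (2 / 3 : ℝ) :=
            Real.rpow_le_rpow (by positivity)
              ((half_lt_self hmin).le.trans (min_le_right _ _)) (by norm_num)
        _ = _ := by rw [hκ3, ← Real.rpow_mul hq3.le]; norm_num
    calc _ ≤ C * (ε2 / (C + 1)) := mul_le_mul_of_nonneg_left h1 hC
      _ ≤ ε2 := by
          rw [mul_div_assoc', div_le_iff₀ (by positivity)]
          nlinarith
  obtain ⟨N1, C1, hF⟩ := hF κ hκ hκa ε2 hε2p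
  obtain ⟨N2, C2, hS⟩ := hS κ hκ hκb
  have key : ∀ N : ℕ, max N1 N2 ≤ N →
      m N ≤ (1 / 2 * recd m N + (|C1| + 2 * (C / δ) * |C2|)) * (N : ℝ) ^ (2 / 3 : ℝ) := by
    intro N hN
    have h1 := hF N (le_trans (le_max_left _ _) hN)
    have h2 := hS N (le_trans (le_max_right _ _) hN)
    set P : ℝ := (N : ℝ) ^ (2 / 3 : ℝ) with hP
    have hP0 : 0 ≤ P := by positivity
    have hr := recd_nonneg m N
    set r : ℝ := recd m N with hrr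
    set s : ℝ := S κ N with hs
    rw [Real.mul_rpow hδ0.le (Nat.cast_nonneg _)] at h1
    have hrP : 0 ≤ r * P := by positivity
    have hCδ : 0 ≤ C / δ := by positivity
    have e1 : C / δ * (C * δ ^ a * r * (δ ^ (2 / 3 : ℝ) * P)) =
        (C / δ * (C * δ ^ a) * δ ^ (2 / 3 : ℝ)) * (r * P) := by ring
    have e2 : C / δ * (C * δ ^ a) * δ ^ (2 / 3 : ℝ) ≤ 1 / 8 := by
      have : C / δ * (C * δ ^ a) * δ ^ (2 / 3 : ℝ) = C * C * δ ^ (a - 1 / 3) := by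
        have h5 : a - 1 / 3 = a + 2 / 3 - 1 := by ring
        rw [h5, Real.rpow_sub hδ0, Real.rpow_add hδ0, Real.rpow_one]
        ring
      rw [this]; exact hδ
    have e3 : C / δ * ((C * κ ^ (2 / 3 : ℝ) + ε2) * r * P) ≤ 1 / 8 * (r * P) := by
      have h7 : C / δ * ((C * κ ^ (2 / 3 : ℝ) + ε2) * r * P) =
        (C / δ * (C * κ ^ (2 / 3 : ℝ) + ε2)) * (r * P) := by ring
      rw [h7]
      apply mul_le_mul_of_nonneg_right _ hrP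
      calc C / δ * (C * κ ^ (2 / 3 : ℝ) + ε2) ≤ C / δ * (ε2 + ε2) :=
            mul_le_mul_of_nonneg_left (by linarith) hCδ
        _ ≤ 1 / 8 := by linarith
    have e4 : C / δ * (2 * s) ≤ (1 / 8 * r + 2 * (C / δ) * |C2|) * P := by
      have h6 : s ≤ (ε2 * r + |C2|) * P :=
        h2.trans (mul_le_mul_of_nonneg_right (by linarith [le_abs_self C2]) hP0)
      have h7 : C / δ * (2 * s) ≤ C / δ * (2 * ((ε2 * r + |C2|) * P)) := by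
        apply mul_le_mul_of_nonneg_left _ hCδ
        linarith
      have h8 : C / δ * (2 * ((ε2 * r + |C2|) * P)) =
          2 * (C / δ * ε2) * (r * P) + 2 * (C / δ) * |C2| * P := by ring
      rw [h8] at h7
      nlinarith
    have e5 : C / δ * (C * δ ^ a * r * (δ ^ (2 / 3 : ℝ) * P) +
        (C * κ ^ (2 / 3 : ℝ) + ε2) * r * P + 2 * s) =
        C / δ * (C * δ ^ a * r * (δ ^ (2 / 3 : ℝ) * P)) +
        C / δ * ((C * κ ^ (2 / 3 : ℝ) + ε2) * r * P) + C / δ * (2 * s) := by ring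
    rw [e5, e1] at h1
    have e6 : C1 * P ≤ |C1| * P := mul_le_mul_of_nonneg_right (le_abs_self _) hP0
    have e7 : (C / δ * (C * δ ^ a) * δ ^ (2 / 3 : ℝ)) * (r * P) ≤ 1 / 8 * (r * P) :=
      mul_le_mul_of_nonneg_right e2 hrP
    nlinarith
  obtain ⟨B, hB⟩ := bdd_of_half key
  refine ⟨|B| + 1, by positivity, fun N hN => ?_⟩
  have h1 := le_recd m hN le_rfl
  have hP0 : 0 ≤ (N : ℝ) ^ (2 / 3 : ℝ) := by positivity
  calc m N ≤ recd m N * (N : ℝ) ^ (2 / 3 : ℝ) := h1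
    _ ≤ (|B| + 1) * (N : ℝ) ^ (2 / 3 : ℝ) :=
      mul_le_mul_of_nonneg_right (by linarith [hB N, le_abs_self B]) hP0

end Pool.Agent.H68.Q1
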