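import Mathlib
import Pool.Agent.H33.Q1.Inv
import Pool.Agent.Q1.M6c.Dob

set_option autoImplicit false
open Finset

/-! # Gate lemma

`E` random, `W` wired, `c0` the root of a rough Dobrushin environment. Three arms `T` of random labels
which share only the vertex `z` cannot all touch both the wired labels and the closed walls. -/

namespace Pool.Agent.H68.Q1

open Pool.Agent.H75.Perc Pool.Agent.H75.TwoArm Pool.Agent.H75.Four Pool.Agent.H69.Q1 Pool.Agent.Q1
open Pool.Agent.Q1.M6c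
open Pool.Agent.H75.TwoArm.StrandAux hiding vx_nxC
open Pool.Agent.H75.Four.PivAux (vx_zu vx_zv)
open Pool.Agent.H77.Q1 (lbf ad_du)
open Pool.Agent.H33.Q1 (co_or_dco not_co_dco co_split dco_split faces_of_lbf)

/-- `a`, `b` are the two faces of the label `e` -/
def Fc (e a b : ℤ × ℤ) : Prop :=
  (a = fi (zu e) ∧ b = fi (zv e)) ∨ (a = fi (zv e) ∧ b = fi (zu e))

lemma Fc.not_dco {w : Finset (ℤ × ℤ)} {e a b : ℤ × ℤ} (h : Fc e a b) (ho : (e.1 + e.2) % 2 = 1)
    (he : e ∉ w) (h1 : Co w (eu e) (ev e)) : ¬ DCo (insert e w) a b := by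
  rcases h with ⟨rfl, rfl⟩ | ⟨rfl, rfl⟩
  · exact not_co_dco ho he h1
  · exact fun h2 => not_co_dco ho he h1 h2.symm

lemma Fc.dco {w : Finset (ℤ × ℤ)} {e a b : ℤ × ℤ} (h : Fc e a b) (ho : (e.1 + e.2) % 2 = 1)
    (he : e ∉ w) (h1 : ¬ Co w (eu e) (ev e)) : DCo (insert e w) a b := by
  have := (co_or_dco ho he).resolve_left h1
  rcases h with ⟨rfl, rfl⟩ | ⟨rfl, rfl⟩
  · exact this
  · exact this.symm

lemma Fc.split {w : Finset (ℤ × ℤ)} {e a b : ℤ × ℤ} (h : Fc e a b) (ho : (e.1 + e.2) % 2 = 1)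
    {f g : ℤ × ℤ} (h1 : DCo w f g) : DCo (insert e w) f g ∨
      ((DCo (insert e w) f a ∨ DCo (insert e w) f b) ∧
      (DCo (insert e w) a g ∨ DCo (insert e w) b g)) := by
  rcases dco_split ho h1 with h2 | ⟨h2, h3⟩
  · exact Or.inl h2
  · right
    rcases h with ⟨rfl, rfl⟩ | ⟨rfl, rfl⟩
    · exact ⟨h2, h3⟩
    · exact ⟨h2.symm, h3.symm⟩

/-- the two faces of a label outside `w` are joined -/
lemma Fc.cross {w : Finset (ℤ × ℤ)} {e a b : ℤ × ℤ} (h : Fc e a b) (ho : (e.1 + e.2) % 2 = 1)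
    (he : e ∉ w) : DCo w a b := by
  have h1 := PivAux.fi_zu_zv ho
  have h2 : DCo w (fi (zu e)) (fi (zv e)) := DCo.step h1.1 (by rw [h1.2]; exact he)
  rcases h with ⟨rfl, rfl⟩ | ⟨rfl, rfl⟩
  · exact h2
  · exact h2.symm

lemma exists_fc {e f : ℤ × ℤ} (h : f = fi (zu e) ∨ f = fi (zv e)) : ∃ b, Fc e f b := by
  rcases h with h | h
  · exact ⟨_, Or.inl ⟨h, rfl⟩⟩
  · exact ⟨_, Or.inr ⟨h, rfl⟩⟩

/-- **Three labels of a theta graph.** -/
theorem three {B : Finset (ℤ × ℤ)} {e1 e2 e3 f0 a1 b1 a2 b2 a3 b3 : ℤ × ℤ}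
    (o1 : (e1.1 + e1.2) % 2 = 1) (o2 : (e2.1 + e2.2) % 2 = 1) (o3 : (e3.1 + e3.2) % 2 = 1)
    (n2 : e2 ∉ B) (n3 : e3 ∉ B) (d12 : e1 ≠ e2) (d13 : e1 ≠ e3)
    (d23 : e2 ≠ e3)
    (h31 : Co (insert e2 B) (eu e3) (ev e3)) (h32 : Co (insert e1 B) (eu e3) (ev e3))
    (h21 : Co (insert e3 B) (eu e2) (ev e2)) (hn : ¬ Co B (eu e3) (ev e3))
    (c1 : Fc e1 a1 b1) (c2 : Fc e2 a2 b2) (c3 : Fc e3 a3 b3)
    (g1 : DCo (insert e1 (insert e2 (insert e3 B))) f0 a1)
    (g2 : DCo (insert e1 (insert e2 (insert e3 B))) f0 a2)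
    (g3 : DCo (insert e1 (insert e2 (insert e3 B))) f0 a3) : False := by
  set A := insert e1 (insert e2 (insert e3 B)) with hA
  set w := insert e2 (insert e3 B) with hw
  have hwA : w ⊆ A := subset_insert _ _
  have hw' : insert e3 (insert e2 B) = w := by rw [hw, insert_comm]
  have N31 : ¬ DCo w a3 b3 := by
    rw [← hw']
    exact c3.not_dco o3 (by rw [mem_insert, not_or]; exact ⟨fun h => d23 h.symm, n3⟩) h31
  have N32 : ¬ DCo (insert e3 (insert e1 B)) a3 b3 :=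
    c3.not_dco o3 (by rw [mem_insert, not_or]; exact ⟨fun h => d13 h.symm, n3⟩) h32
  have N21 : ¬ DCo w a2 b2 :=
    c2.not_dco o2 (by rw [mem_insert, not_or]; exact ⟨d23, n2⟩) h21
  have Y3 : DCo (insert e3 B) a3 b3 := c3.dco o3 n3 hn
  have h32A : insert e3 (insert e1 B) ⊆ A := by
    intro x hx
    rw [hA, hw]
    simp only [mem_insert] at hx ⊢
    tauto
  have g23 : DCo A a2 a3 := g2.symm.trans g3
  have g13 : DCo A a1 a3 := g1.symm.trans g3
  have g12 : DCo A a1 a2 := g1.symm.trans g2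
  -- `b2`, `b3` are joined off `w`
  have key : DCo w b2 b3 := by
    rcases c2.split o2 Y3 with h | ⟨h | h, h' | h'⟩
    · exact absurd h N31
    · exact absurd (h.trans h') N31
    · exact h'
    · exact absurd ((g23.anti hwA).trans h) N21
    · exact absurd (h.trans h') N31
  have notb : ¬ DCo A b2 b3 := by
    intro h
    apply N32
    have h1 : DCo (insert e3 (insert e1 B)) a2 b2 := by
      refine c2.cross o2 ?_
      rw [mem_insert, mem_insert, not_or, not_or]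
      exact ⟨d23, d12.symm, n2⟩
    exact ((g23.symm.anti h32A).trans h1).trans (h.anti h32A)
  rcases c1.split o1 key with h | ⟨h | h, h' | h'⟩
  · exact notb h
  · exact notb (h.trans h')
  · exact N21 ((g12.symm.trans h.symm).anti hwA)
  · exact N31 ((g13.symm.trans h').anti hwA)
  · exact notb (h.trans h')

/-- the vertex `x` is an end of a label of `T` -/
def Tc (T : Finset (ℤ × ℤ)) (x : ℤ × ℤ) : Prop := ∃ y, IsUnit4 (y - x) ∧ x + y ∈ T

lemma Tc.mono {T T' : Finset (ℤ × ℤ)} (h : T ⊆ T') {x : ℤ × ℤ} (hx : Tc T x) : Tc T' x := by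
  obtain ⟨y, h1, h2⟩ := hx
  exact ⟨y, h1, h h2⟩

lemma tc_of_co {T : Finset (ℤ × ℤ)} {z x : ℤ × ℤ} (h : Co T z x) : x = z ∨ Tc T x := by
  rcases Relation.ReflTransGen.cases_tail h with h1 | ⟨u, -, h1⟩
  · exact Or.inl h1
  · right
    have := h1.symm
    exact ⟨u, this.1, this.2⟩

/-- wired vertices -/
lemma co_of_tc {E W : Finset (ℤ × ℤ)} {c0 : ℤ × ℤ} (hD : Dobr E W c0) {x : ℤ × ℤ} (h : Tc W x) :
    Co W (vx c0) x := by
  obtain ⟨y, h1, h2⟩ := h
  have ho := hD.oddW _ h2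
  rcases ends_of_add h1 rfl with ⟨h3, h4⟩ | ⟨h3, h4⟩
  · have := hD.wco (zu (x + y)) (by rw [(Pool.Agent.H75.Four.opc_zu ho).2.2.1]; exact h2)
    rwa [vx_zu ho, ← h3] at this
  · have := hD.wco (zv (x + y)) (by rw [(Pool.Agent.H75.Four.opc_zu ho).2.2.2.1]; exact h2)
    rwa [vx_zv ho, ← h3] at this

/-- **An arm**: random labels `T` which join `z` to the wired labels; it contains a label `l` which
separates `z` from the wired labels, one of whose faces is joined to the closed walls by labels of `T`. -/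
structure Arm (E W : Finset (ℤ × ℤ)) (c0 z : ℤ × ℤ) (T : Finset (ℤ × ℤ)) : Prop where
  sub : T ⊆ E
  co : Co (W ∪ T) z (vx c0)
  ex : ∃ l ∈ T, ¬ Co (W ∪ T.erase l) z (vx c0) ∧
    (DCo ((E \ T) ∪ W) (fi (zu l)) (fi c0) ∨ DCo ((E \ T) ∪ W) (fi (zv l)) (fi c0))

/-- a minimal path of an arm -/
structure MArm (E W : Finset (ℤ × ℤ)) (c0 z : ℤ × ℤ) (T A : Finset (ℤ × ℤ)) (e a b x y : ℤ × ℤ) :
    Prop where
  sub : A ⊆ T
  mem : e ∈ A
  zh : Co (W ∪ A) z (vx c0)
  nzh : ¬ Co (W ∪ A.erase e) z (vx c0)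
  fc : Fc e a b
  dco : DCo ((E \ T) ∪ W ∪ A) (fi c0) a
  ends : (x = eu e ∧ y = ev e) ∨ (x = ev e ∧ y = eu e)
  zx : Co (W ∪ A.erase e) z x
  yh : Co (W ∪ A.erase e) y (vx c0)

theorem Arm.min {E W T : Finset (ℤ × ℤ)} {c0 z : ℤ × ℤ} (hD : Dobr E W c0)
    (h : Arm E W c0 z T) : ∃ A e a b x y, MArm E W c0 z T A e a b x y := by
  classical
  obtain ⟨l, hlT, hl, hF⟩ := h.ex
  -- a minimal set of labels
  have hne : (T.powerset.filter fun A => Co (W ∪ A) z (vx c0)).Nonempty :=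
    ⟨T, mem_filter.2 ⟨mem_powerset_self _, h.co⟩⟩
  obtain ⟨A, hA, hmin⟩ := exists_min_image _ (fun A => #A) hne
  rw [mem_filter, mem_powerset] at hA
  obtain ⟨hAT, hAc⟩ := hA
  have hbr : ∀ e ∈ A, ¬ Co (W ∪ A.erase e) z (vx c0) := by
    intro e he hc
    have h1 := hmin (A.erase e) (mem_filter.2
      ⟨mem_powerset.2 ((erase_subset _ _).trans hAT), hc⟩)
    have h2 := card_erase_lt_of_mem he
    exact absurd h1 (not_le.2 h2)
  have hlA : l ∈ A := by
    by_contra hlA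
    apply hl
    refine hAc.mono (union_subset_union_right ?_)
    intro x hx
    exact mem_erase.2 ⟨fun h1 => hlA (h1 ▸ hx), hAT hx⟩
  -- the label with a face joined to the walls
  have hwalk : ∀ g, DCo ((E \ T) ∪ W) g (fi c0) → DCo ((E \ T) ∪ W ∪ A) g (fi c0) ∨
      ∃ e ∈ A, ∃ a b, Fc e a b ∧ DCo ((E \ T) ∪ W ∪ A) a (fi c0) := by
    rintro g ⟨F, hF⟩
    induction hF using Relation.ReflTransGen.head_induction_on with
    | refl => exact Or.inl (DCo.refl _ _)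
    | @head p q hpq _ ih =>
      rcases ih with ih | ih
      · obtain ⟨h1, h2, h3⟩ := ad_du.1 hpq
        by_cases hm : lbf p q ∈ A
        · right
          have ho := h.sub (hAT hm)
          have ho := hD.odd _ ho
          refine ⟨_, hm, q, p, ?_, ih⟩
          rcases faces_of_lbf ho h1 rfl with ⟨h4, h5⟩ | ⟨h4, h5⟩
          · exact Or.inr ⟨h5, h4⟩
          · exact Or.inl ⟨h5, h4⟩
        · left
          refine (DCo.step h1 ?_).trans ih
          rw [mem_union, not_or]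
          exact ⟨h3, hm⟩
      · exact Or.inr ih
  have hfin : ∃ e ∈ A, ∃ a b, Fc e a b ∧ DCo ((E \ T) ∪ W ∪ A) a (fi c0) := by
    rcases hF with hF | hF
    · rcases hwalk _ hF with h1 | h1
      · exact ⟨l, hlA, _, _, Or.inl ⟨rfl, rfl⟩, h1⟩
      · exact h1
    · rcases hwalk _ hF with h1 | h1
      · exact ⟨l, hlA, _, _, Or.inr ⟨rfl, rfl⟩, h1⟩
      · exact h1
  obtain ⟨e, heA, a, b, hfc, hdco⟩ := hfin
  have heW : e ∉ W := fun h1 => disjoint_left.1 hD.disj (h.sub (hAT heA)) h1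
  have hins : insert e (W ∪ A.erase e) = W ∪ A := by
    ext x
    simp only [mem_insert, mem_union, mem_erase]
    constructor
    · rintro (rfl | h1 | h1)
      · exact Or.inr heA
      · exact Or.inl h1
      · exact Or.inr h1.2
    · rintro (h1 | h1)
      · exact Or.inr (Or.inl h1)
      · by_cases hx : x = e
        · exact Or.inl hx
        · exact Or.inr (Or.inr ⟨hx, h1⟩)
  have hnz := hbr e heA
  have hs := co_split (w := W ∪ A.erase e) (e := e) (by rw [hins]; exact hAc)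
  rcases hs with hs | ⟨hs | hs, hs' | hs'⟩
  · exact absurd hs hnz
  · exact absurd (hs.trans hs') hnz
  · exact ⟨A, e, a, b, eu e, ev e, hAT, heA, hAc, hnz, hfc, hdco.symm, Or.inl ⟨rfl, rfl⟩, hs, hs'⟩
  · exact ⟨A, e, a, b, ev e, eu e, hAT, heA, hAc, hnz, hfc, hdco.symm, Or.inr ⟨rfl, rfl⟩, hs, hs'⟩
  · exact absurd (hs.trans hs') hnz

/-- two arms which share only the vertex `z` -/
def Sepd (T T' : Finset (ℤ × ℤ)) (z : ℤ × ℤ) : Prop := ∀ x, Tc T x → Tc T' x → x = z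

lemma Sepd.symm {T T' : Finset (ℤ × ℤ)} {z : ℤ × ℤ} (h : Sepd T T' z) : Sepd T' T z :=
  fun x h1 h2 => h x h2 h1

lemma Sepd.disj {T T' : Finset (ℤ × ℤ)} {z : ℤ × ℤ} (ho : ∀ e ∈ T, (e.1 + e.2) % 2 = 1)
    (h : Sepd T T' z) {e : ℤ × ℤ} (h1 : e ∈ T) (h2 : e ∈ T') : False := by
  have h3 := PivAux.eu_ev (ho e h1)
  have k1 := h (eu e) ⟨ev e, h3.1, by rw [h3.2]; exact h1⟩ ⟨ev e, h3.1, by rw [h3.2]; exact h2⟩
  have h4 : IsUnit4 (eu e - ev e) := PivAux.unit4_symm h3.1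
  have k2 := h (ev e) ⟨eu e, h4, by rw [add_comm, h3.2]; exact h1⟩
    ⟨eu e, h4, by rw [add_comm, h3.2]; exact h2⟩
  have h5 := unit_cases h3.1
  rw [k1, k2] at h5
  omega

/-- **Gate lemma.** -/
theorem gate {E W : Finset (ℤ × ℤ)} {c0 z : ℤ × ℤ} (hD : Dobr E W c0)
    {T1 T2 T3 : Finset (ℤ × ℤ)} (h1 : Arm E W c0 z T1) (h2 : Arm E W c0 z T2)
    (h3 : Arm E W c0 z T3) (s12 : Sepd T1 T2 z) (s13 : Sepd T1 T3 z) (s23 : Sepd T2 T3 z) :
    False := by
  classical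
  obtain ⟨A1, e1, a1, b1, x1, y1, m1⟩ := h1.min hD
  obtain ⟨A2, e2, a2, b2, x2, y2, m2⟩ := h2.min hD
  obtain ⟨A3, e3, a3, b3, x3, y3, m3⟩ := h3.min hD
  have oT1 : ∀ e ∈ T1, (e.1 + e.2) % 2 = 1 := fun e he => hD.odd _ (h1.sub he)
  have oT2 : ∀ e ∈ T2, (e.1 + e.2) % 2 = 1 := fun e he => hD.odd _ (h2.sub he)
  have oT3 : ∀ e ∈ T3, (e.1 + e.2) % 2 = 1 := fun e he => hD.odd _ (h3.sub he)
  -- labels
  have t1 := m1.sub m1.mem
  have t2 := m2.sub m2.mem
  have t3 := m3.sub m3.mem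
  have wE : ∀ e, e ∈ E → e ∉ W := fun e he hw => disjoint_left.1 hD.disj he hw
  have e1W := wE _ (h1.sub t1)
  have e2W := wE _ (h2.sub t2)
  have e3W := wE _ (h3.sub t3)
  have e1A2 : e1 ∉ A2 := fun h => s12.disj oT1 t1 (m2.sub h)
  have e1A3 : e1 ∉ A3 := fun h => s13.disj oT1 t1 (m3.sub h)
  have e2A1 : e2 ∉ A1 := fun h => s12.symm.disj oT2 t2 (m1.sub h)
  have e2A3 : e2 ∉ A3 := fun h => s23.disj oT2 t2 (m3.sub h)
  have e3A1 : e3 ∉ A1 := fun h => s13.symm.disj oT3 t3 (m1.sub h)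
  have e3A2 : e3 ∉ A2 := fun h => s23.symm.disj oT3 t3 (m2.sub h)
  have d12 : e1 ≠ e2 := fun h => e1A2 (h ▸ m2.mem)
  have d13 : e1 ≠ e3 := fun h => e1A3 (h ▸ m3.mem)
  have d23 : e2 ≠ e3 := fun h => e2A3 (h ▸ m3.mem)
  set B := W ∪ (A1.erase e1 ∪ (A2.erase e2 ∪ A3.erase e3)) with hB
  have hA : insert e1 (insert e2 (insert e3 B)) = W ∪ (A1 ∪ (A2 ∪ A3)) := by
    ext x
    simp only [hB, mem_insert, mem_union, mem_erase]
    have q1 := m1.mem
    have q2 := m2.mem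
    have q3 := m3.mem
    by_cases k1 : x = e1
    · subst k1; tauto
    by_cases k2 : x = e2
    · subst k2; tauto
    by_cases k3 : x = e3
    · subst k3; tauto
    clear * - k1 k2 k3
    tauto
  have n1 : e1 ∉ B := by simp only [hB, mem_union, mem_erase]; tauto
  have n2 : e2 ∉ B := by simp only [hB, mem_union, mem_erase]; tauto
  have n3 : e3 ∉ B := by simp only [hB, mem_union, mem_erase]; tauto
  have D2B : W ∪ A2.erase e2 ⊆ B := by
    intro x hx
    simp only [hB, mem_union] at hx ⊢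
    tauto
  have D3B : W ∪ A3.erase e3 ⊆ B := by
    intro x hx
    simp only [hB, mem_union] at hx ⊢
    tauto
  have ins : ∀ {A : Finset (ℤ × ℤ)} {e : ℤ × ℤ}, A.erase e ⊆ B → W ∪ A ⊆ insert e B := by
    intro A e hAe x hx
    rw [mem_insert]
    rcases mem_union.1 hx with h | h
    · exact Or.inr (mem_union_left _ h)
    · by_cases hxe : x = e
      · exact Or.inl hxe
      · exact Or.inr (hAe (mem_erase.2 ⟨hxe, h⟩))
  have A1B : A1.erase e1 ⊆ B := by
    intro x hx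
    simp only [hB, mem_union]
    tauto
  have A2B : A2.erase e2 ⊆ B := subset_union_right.trans D2B
  have A3B : A3.erase e3 ⊆ B := subset_union_right.trans D3B
  have join : ∀ {x y e : ℤ × ℤ} {w : Finset (ℤ × ℤ)}, ((x = eu e ∧ y = ev e) ∨ (x = ev e ∧ y = eu e)) →
      Co w x y → Co w (eu e) (ev e) := by
    intro x y e w h hc
    rcases h with ⟨rfl, rfl⟩ | ⟨rfl, rfl⟩
    · exact hc
    · exact hc.symm
  have joinr : ∀ {x y e : ℤ × ℤ} {w : Finset (ℤ × ℤ)}, ((x = eu e ∧ y = ev e) ∨ (x = ev e ∧ y = eu e)) →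
      Co w (eu e) (ev e) → Co w x y := by
    intro x y e w h hc
    rcases h with ⟨rfl, rfl⟩ | ⟨rfl, rfl⟩
    · exact hc
    · exact hc.symm
  have sB : ∀ e, B ⊆ insert e B := fun e => subset_insert _ _
  have h31 : Co (insert e2 B) (eu e3) (ev e3) := join m3.ends
    (((m3.zx.mono (D3B.trans (sB e2))).symm.trans (m2.zh.mono (ins A2B))).trans
      (m3.yh.mono (D3B.trans (sB e2))).symm)
  have h32 : Co (insert e1 B) (eu e3) (ev e3) := join m3.ends
    (((m3.zx.mono (D3B.trans (sB e1))).symm.trans (m1.zh.mono (ins A1B))).trans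
      (m3.yh.mono (D3B.trans (sB e1))).symm)
  have h21 : Co (insert e3 B) (eu e2) (ev e2) := join m2.ends
    (((m2.zx.mono (D2B.trans (sB e3))).symm.trans (m3.zh.mono (ins A3B))).trans
      (m2.yh.mono (D2B.trans (sB e3))).symm)
  -- `z` is not joined to the hub in `B`
  have hz : ∀ x, Co B z x → Co (A1.erase e1) z x ∨ Co (A2.erase e2) z x ∨ Co (A3.erase e3) z x := by
    have hw : ∀ {A T : Finset (ℤ × ℤ)} {e x : ℤ × ℤ}, ¬ Co (W ∪ A.erase e) z (vx c0) →
        Co (A.erase e) z x → ¬ Tc W x := by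
      intro A T e x hn hc ht
      exact hn ((hc.mono subset_union_right).trans ((co_of_tc hD ht).symm.mono subset_union_left))
    have mv : ∀ {A T A' T' : Finset (ℤ × ℤ)} {e e' x y : ℤ × ℤ}, A ⊆ T → A' ⊆ T' → Sepd T T' z →
        Co (A.erase e) z x → Ad (A'.erase e') x y → Co (A'.erase e') z y := by
      intro A T A' T' e e' x y hAT hAT' hs hc had
      have ht' : Tc T' x := ⟨y, had.1, hAT' (mem_erase.1 had.2).2⟩
      rcases tc_of_co hc with hx | ht
      · rw [← hx]; exact Relation.ReflTransGen.single had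
      · have : x = z := hs x (ht.mono ((erase_subset _ _).trans hAT)) ht'
        rw [← this]; exact Relation.ReflTransGen.single had
    intro x hx
    induction hx with
    | refl => exact Or.inl (Co.refl _ _)
    | @tail p q _ hpq ih =>
      have hm := hpq.2
      rw [hB, mem_union, mem_union, mem_union] at hm
      have hnW : p + q ∉ W := by
        intro hW
        have ht : Tc W p := ⟨q, hpq.1, hW⟩
        rcases ih with ih | ih | ih
        · exact hw (T := T1) m1.nzh ih ht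
        · exact hw (T := T2) m2.nzh ih ht
        · exact hw (T := T3) m3.nzh ih ht
      rcases hm with hm | hm | hm | hm
      · exact absurd hm hnW
      · left
        rcases ih with ih | ih | ih
        · exact ih.tail ⟨hpq.1, hm⟩
        · exact mv m2.sub m1.sub s12.symm ih ⟨hpq.1, hm⟩
        · exact mv m3.sub m1.sub s13.symm ih ⟨hpq.1, hm⟩
      · right; left
        rcases ih with ih | ih | ih
        · exact mv m1.sub m2.sub s12 ih ⟨hpq.1, hm⟩
        · exact ih.tail ⟨hpq.1, hm⟩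
        · exact mv m3.sub m2.sub s23.symm ih ⟨hpq.1, hm⟩
      · right; right
        rcases ih with ih | ih | ih
        · exact mv m1.sub m3.sub s13 ih ⟨hpq.1, hm⟩
        · exact mv m2.sub m3.sub s23 ih ⟨hpq.1, hm⟩
        · exact ih.tail ⟨hpq.1, hm⟩
  have hn : ¬ Co B (eu e3) (ev e3) := by
    intro hc
    have h4 := joinr m3.ends hc
    have h5 : Co B z (vx c0) := ((m3.zx.mono D3B).trans h4).trans (m3.yh.mono D3B)
    rcases hz _ h5 with h6 | h6 | h6
    · exact m1.nzh (h6.mono subset_union_right)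
    · exact m2.nzh (h6.mono subset_union_right)
    · exact m3.nzh (h6.mono subset_union_right)
  -- the faces
  have hdc : ∀ {T A : Finset (ℤ × ℤ)} {a : ℤ × ℤ}, (W ∪ (A1 ∪ (A2 ∪ A3))) ⊆ (E \ T) ∪ W ∪ A →
      DCo ((E \ T) ∪ W ∪ A) (fi c0) a → DCo (insert e1 (insert e2 (insert e3 B))) (fi c0) a := by
    intro T A a hs hd
    rw [hA]
    exact hd.anti hs
  have sE1 : ∀ x ∈ A1, x ∈ E ∧ x ∉ T2 ∧ x ∉ T3 := fun x hx =>
    ⟨h1.sub (m1.sub hx), fun h => s12.disj oT1 (m1.sub hx) h, fun h => s13.disj oT1 (m1.sub hx) h⟩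
  have sE2 : ∀ x ∈ A2, x ∈ E ∧ x ∉ T1 ∧ x ∉ T3 := fun x hx =>
    ⟨h2.sub (m2.sub hx), fun h => s12.symm.disj oT2 (m2.sub hx) h,
      fun h => s23.disj oT2 (m2.sub hx) h⟩
  have sE3 : ∀ x ∈ A3, x ∈ E ∧ x ∉ T1 ∧ x ∉ T2 := fun x hx =>
    ⟨h3.sub (m3.sub hx), fun h => s13.symm.disj oT3 (m3.sub hx) h,
      fun h => s23.symm.disj oT3 (m3.sub hx) h⟩
  have g1 := hdc (T := T1) (A := A1) (by
    intro x hx
    simp only [mem_union, mem_sdiff] at hx ⊢
    rcases hx with h | h | h | h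
    · exact Or.inl (Or.inr h)
    · exact Or.inr h
    · exact Or.inl (Or.inl ⟨(sE2 x h).1, (sE2 x h).2.1⟩)
    · exact Or.inl (Or.inl ⟨(sE3 x h).1, (sE3 x h).2.1⟩)) m1.dco
  have g2 := hdc (T := T2) (A := A2) (by
    intro x hx
    simp only [mem_union, mem_sdiff] at hx ⊢
    rcases hx with h | h | h | h
    · exact Or.inl (Or.inr h)
    · exact Or.inl (Or.inl ⟨(sE1 x h).1, (sE1 x h).2.1⟩)
    · exact Or.inr h
    · exact Or.inl (Or.inl ⟨(sE3 x h).1, (sE3 x h).2.2⟩)) m2.dco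
  have g3 := hdc (T := T3) (A := A3) (by
    intro x hx
    simp only [mem_union, mem_sdiff] at hx ⊢
    rcases hx with h | h | h | h
    · exact Or.inl (Or.inr h)
    · exact Or.inl (Or.inl ⟨(sE1 x h).1, (sE1 x h).2.2⟩)
    · exact Or.inl (Or.inl ⟨(sE2 x h).1, (sE2 x h).2.2⟩)
    · exact Or.inr h) m3.dco
  exact three (oT1 _ t1) (oT2 _ t2) (oT3 _ t3) n2 n3 d12 d13 d23 h31 h32 h21 hn m1.fc m2.fc m3.fc
    g1 g2 g3

end Pool.Agent.H68.Q1
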