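import Mathlib
import Pool.Agent.H68.Q1.Gate
import Pool.Agent.H77.Q1.Cls
import Pool.Agent.H33.Q1.Reroot

set_option autoImplicit false
open Finset

/-! # Paths of one colour from a corner of the exploration to the walls; visits of a label

`hub_open`, `hub_dual`: an open (closed) path of random labels from a corner of the exploration path to
the walls. `visit_label`: probability that the path meets a label far from the walls. -/

namespace Pool.Agent.H68.Q1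

open Pool.Agent.H75.Perc Pool.Agent.H75.TwoArm Pool.Agent.H75.Four Pool.Agent.H69.Q1 Pool.Agent.Q1
open Pool.Agent.Q1.M6c
open Pool.Agent.H75.TwoArm.StrandAux hiding vx_nxC
open Pool.Agent.H77.Q1 (lbf ad_du)

variable {E W : Finset (ℤ × ℤ)} {c0 : ℤ × ℤ}

/-- the vertex `g` has a label outside `E` -/
def Out (E : Finset (ℤ × ℤ)) (g : ℤ × ℤ) : Prop := ∃ y, IsUnit4 (y - g) ∧ g + y ∉ E

/-- the face `g` has a side outside `E` -/
def OutF (E : Finset (ℤ × ℤ)) (g : ℤ × ℤ) : Prop := ∃ y, IsUnit4 (y - g) ∧ lbf g y ∉ E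

lemma out_root (h : plab c0 ∉ E) : Out E (vx c0) := by
  obtain ⟨z', h1, h2⟩ := pv_empty_nxC c0
  refine ⟨vx (nxO z'), ?_, ?_⟩
  · rw [← h2, vx_nxC]; exact (vx_nxO z').1
  · have h3 : vx c0 = vx z' := by rw [← h2, vx_nxC]
    rw [h3, (vx_nxO z').2, h1]; exact h

lemma outF_root (h : plab c0 ∉ E) : OutF E (fi c0) := by
  obtain ⟨z', h1, h2⟩ := pv_full_nxO c0
  refine ⟨fi (nxC z'), ?_, ?_⟩
  · rw [← h2, fi_nxO]; exact (fi_nxC z').1
  · have h3 : fi c0 = fi z' := by rw [← h2, fi_nxO]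
    unfold lbf
    rw [h3, (fi_nxC z').2, add_sub_cancel_right, h1]; exact h

/-- **Open path to the wired labels.** -/
lemma hub_open (hD : Dobr E W c0) {ω : Finset (ℤ × ℤ)} {x : ℤ × ℤ}
    (h : Co (ω ∪ W) (vx c0) x) : ∃ g, Co ω x g ∧ Co W (vx c0) g ∧ Out E g := by
  have h' := h.symm
  clear h
  induction h' using Relation.ReflTransGen.head_induction_on with
  | refl => exact ⟨_, Co.refl _ _, Co.refl _ _, out_root hD.root⟩
  | @head p q hpq _ ih =>
    rcases mem_union.1 hpq.2 with h1 | h1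
    · obtain ⟨g, h2, h3, h4⟩ := ih
      exact ⟨g, Relation.ReflTransGen.head ⟨hpq.1, h1⟩ h2, h3, h4⟩
    · exact ⟨p, Co.refl _ _, co_of_tc hD ⟨q, hpq.1, h1⟩, q, hpq.1,
        fun h2 => disjoint_left.1 hD.disj h2 h1⟩

/-- **Closed path to the closed walls.** -/
lemma hub_dual (hD : Dobr E W c0) {ω : Finset (ℤ × ℤ)} {x : ℤ × ℤ}
    (h : DCo (ω ∪ W) (fi c0) x) : ∃ g, Co (du E ω) x g ∧ DCo (E ∪ W) (fi c0) g ∧ OutF E g := by
  obtain ⟨F, h'⟩ := h.symm
  clear h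
  induction h' using Relation.ReflTransGen.head_induction_on with
  | refl => exact ⟨_, Co.refl _ _, DCo.refl _ _, outF_root hD.root⟩
  | @head p q hpq _ ih =>
    obtain ⟨h0, h1, h2⟩ := ad_du.1 hpq
    rw [mem_union, not_or] at h2
    by_cases hE : lbf p q ∈ E
    · obtain ⟨g, h3, h4, h5⟩ := ih
      exact ⟨g, Relation.ReflTransGen.head (ad_du.2 ⟨h0, hE, h2.1⟩) h3, h4, h5⟩
    · refine ⟨p, Co.refl _ _, ?_, q, h0, hE⟩
      -- a corner of the face `p` next to the label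
      have ho : ((lbf p q).1 + (lbf p q).2) % 2 = 1 := by
        have := unit_cases h0
        unfold lbf
        simp only [Prod.fst_sub, Prod.snd_sub, Prod.fst_add, Prod.snd_add]
        omega
      rcases Pool.Agent.H33.Q1.faces_of_lbf ho h0 rfl with ⟨h3, -⟩ | ⟨h3, -⟩
      · have h4 := (Pool.Agent.H75.Four.opc_zu ho).2.2.1
        rw [h3]
        exact hD.lco _ (by rw [h4]; exact hE) (by rw [h4]; exact h2.2)
      · have h4 := (Pool.Agent.H75.Four.opc_zu ho).2.2.2.1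
        rw [h3]
        exact hD.lco _ (by rw [h4]; exact hE) (by rw [h4]; exact h2.2)

/-- a vertex with a label outside a free box is far from its centre -/
lemma Out.far {p g : ℤ × ℤ} {m : ℤ} (h : Out E g) (hf : Free E p m) :
    m ≤ |g.1 - p.1| ∨ m ≤ |g.2 - p.2| := by
  obtain ⟨y, h1, h2⟩ := h
  by_contra hc
  push Not at hc
  apply h2
  apply hf
  have h3 := unit_cases h1
  obtain ⟨h4, h5⟩ := hc
  rw [abs_lt] at h4 h5
  rw [mem_Bx]
  simp only [Prod.fst_add, Prod.snd_add]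
  omega

/-- a face with a side outside a free box is far from its centre -/
lemma OutF.far {p g : ℤ × ℤ} {m : ℤ} (h : OutF E g) (hf : Free E p m) :
    m ≤ |g.1 - p.1| ∨ m ≤ |g.2 - p.2| := by
  obtain ⟨y, h1, h2⟩ := h
  by_contra hc
  push Not at hc
  apply h2
  apply hf
  have h3 := unit_cases h1
  obtain ⟨h4, h5⟩ := hc
  rw [abs_lt] at h4 h5
  rw [mem_Bx]
  unfold lbf
  simp only [Prod.fst_sub, Prod.snd_sub, Prod.fst_add, Prod.snd_add]
  omega

lemma lab_cases' (c : ℤ × ℤ) : ((lab c).1 + (lab c).2) % 2 = 1 ∧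
    ((lab c).1 = c.1 ∨ (lab c).1 = c.1 - 1) ∧ ((lab c).2 = c.2 ∨ (lab c).2 = c.2 - 1) := by
  obtain ⟨a, b⟩ := c
  unfold lab
  simp only
  split_ifs <;> refine ⟨?_, ?_, ?_⟩ <;> omega

lemma plab_cases' (c : ℤ × ℤ) :
    ((plab c).1 = c.1 ∨ (plab c).1 = c.1 - 1) ∧ ((plab c).2 = c.2 ∨ (plab c).2 = c.2 - 1) := by
  obtain ⟨a, b⟩ := c
  unfold plab
  simp only
  split_ifs <;> refine ⟨?_, ?_⟩ <;> omega

lemma lab_near (c : ℤ × ℤ) : ((lab c).1 + (lab c).2) % 2 = 1 ∧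
    (-1 ≤ (lab c).1 - 2 * (vx c).1 ∧ (lab c).1 - 2 * (vx c).1 ≤ 1) ∧
    (-1 ≤ (lab c).2 - 2 * (vx c).2 ∧ (lab c).2 - 2 * (vx c).2 ≤ 1) ∧
    (-2 ≤ (lab c).1 - 2 * (fi c).1 ∧ (lab c).1 - 2 * (fi c).1 ≤ 0) ∧
    (-2 ≤ (lab c).2 - 2 * (fi c).2 ∧ (lab c).2 - 2 * (fi c).2 ≤ 0) := by
  have h := lab_cases' c
  unfold vx fi
  simp only
  omega

lemma plab_near (c : ℤ × ℤ) :
    (-1 ≤ (plab c).1 - (lab c).1 ∧ (plab c).1 - (lab c).1 ≤ 1) ∧
    (-1 ≤ (plab c).2 - (lab c).2 ∧ (plab c).2 - (lab c).2 ≤ 1) ∧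
    ((plab c).1 + (plab c).2) % 2 = 1 := by
  have h := lab_cases' c
  have h' := plab_cases' c
  obtain ⟨z', h1, -⟩ := pv_empty_nxC c
  have h2 := (lab_cases' z').1
  rw [h1] at h2
  omega

/-- the corners of the exploration path -/
lemma on_path {X : Env} (h : PlaneEnv X W) {ω : Finset (ℤ × ℤ)} (hω : ω ⊆ X.E) (i : ℕ) :
    Co (ω ∪ W) (vx X.c0) (vx (X.z ω i)) ∧ DCo (ω ∪ W) (fi X.c0) (fi (X.z ω i)) := by
  rw [h.zz ω hω]
  exact Pool.Agent.H33.Q1.inOrb_iff_dco.1 ⟨i, rfl⟩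

/-- **Probability of the visit of a label far from the walls.** -/
theorem visit_label : ∃ δ : ℝ, 0 < δ ∧ δ < 1 ∧ ∀ (X : Env) (W : Finset (ℤ × ℤ)), DEnvX X W →
    ∀ (p l : ℤ × ℤ) (ρ : ℤ) (n : ℕ), Free X.E p (2 * ρ) → |l.1 - 2 * p.1| ≤ 2 * ρ - 1 →
    |l.2 - 2 * p.2| ≤ 2 * ρ - 1 → (4 : ℤ) ^ n ≤ ρ - 2 →
    Pr X.E (fun ω => ∃ i < X.len ω, lab (X.z ω i) = l) ≤ (1 - δ) ^ n := by
  obtain ⟨δ, h0, h1, h⟩ := open_arm_decay
  refine ⟨δ, h0, h1, ?_⟩
  intro X W hX p l ρ n hF hl1 hl2 hn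
  refine (Pr_mono ?_).trans (h X.E hX.dob.odd (l.1 / 2, l.2 / 2) 1 le_rfl n)
  rintro ω hω ⟨i, -, hi⟩
  obtain ⟨g, h2, -, h4⟩ := hub_open hX.dob (on_path hX.toPlaneEnv hω i).1
  have h5 := h4.far hF
  have h6 := lab_near (X.z ω i)
  rw [hi] at h6
  rw [abs_le] at hl1 hl2
  refine ⟨_, g, ?_, ?_, ?_, h2⟩
  · rw [abs_le]; simp only; omega
  · rw [abs_le]; simp only; omega
  · rw [mul_one]
    simp only
    rcases h5 with h5 | h5
    · left
      rcases le_abs.1 h5 with h7 | h7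
      · exact le_abs.2 (Or.inl (by omega))
      · exact le_abs.2 (Or.inr (by omega))
    · right
      rcases le_abs.1 h5 with h7 | h7
      · exact le_abs.2 (Or.inl (by omega))
      · exact le_abs.2 (Or.inr (by omega))

/-- union bound -/
lemma Pr_ex_le {α ι : Type*} [DecidableEq α] (E : Finset α) (s : Finset ι)
    (B : ι → Finset α → Prop) : Pr E (fun ω => ∃ i ∈ s, B i ω) ≤ ∑ i ∈ s, Pr E (B i) := by
  classical
  induction s using Finset.induction_on with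
  | empty =>
    rw [sum_empty]
    refine le_of_eq ?_
    rw [Pr_eq]
    simp
  | @insert i u hi ih =>
    rw [sum_insert hi]
    refine le_trans (Pr_mono ?_) ((Pr_or_le E (B i) (fun ω => ∃ i ∈ u, B i ω)).trans
      (by linarith))
    rintro ω - ⟨j, hj, h⟩
    rcases mem_insert.1 hj with rfl | hj
    · exact Or.inl h
    · exact Or.inr ⟨j, hj, h⟩

end Pool.Agent.H68.Q1
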