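import Mathlib
import Pool.Agent.H68.Q1.Hub
import Pool.Agent.H68.Q1.APAbs2

set_option autoImplicit false
open Finset hiding val

/-! # Exploration up to a chain

`explore`: the value of a chain is at most the probability that the exploration path comes near the
chain times a bound for the environments in which the tip is next to the chain, up to a small error (the
tip at an extreme label of a diamond). `Sup68`: the supremum over the class of the maximum principle. -/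

namespace Pool.Agent.H68.Q1

open Pool.Agent.H75.Perc Pool.Agent.H75.TwoArm Pool.Agent.H75.Four Pool.Agent.H69.Q1 Pool.Agent.Q1
open Pool.Agent.Q1.M6c Pool.Agent.H99.NC
open Pool.Agent.H75.TwoArm.StrandAux hiding vx_nxC
open Pool.Agent.H77.Q1 (Dm mem_Dm Ext mem_Ext Chn NearW val Tip CL Bx_sub_Dm Dm_sub_Bx)

/-- the tip is in one of the diamonds of the chain -/
def HitP (v : ℕ → ℤ × ℤ) (k : ℕ) (ρ : ℤ) (z : ℤ × ℤ) : Prop := ∃ j ≤ k, lab z ∈ Dm (v j) ρ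

/-- the path comes into one of the diamonds -/
def Hit (X : Env) (v : ℕ → ℤ × ℤ) (k : ℕ) (ρ : ℤ) (ω : Finset (ℤ × ℤ)) : Prop :=
  ∃ i < X.len ω, HitP v k ρ (X.z ω i)

/-- the path meets an extreme label -/
def HitE (X : Env) (v : ℕ → ℤ × ℤ) (k : ℕ) (ρ : ℤ) (ω : Finset (ℤ × ℤ)) : Prop :=
  ∃ j ∈ range (k + 1), ∃ l ∈ Ext (v j) ρ, ∃ i < X.len ω, lab (X.z ω i) = l

lemma val_avg (X : Env) (P : ℤ × ℤ → Prop) (v : ℕ → ℤ × ℤ) (k : ℕ) :
    val X v k = Ec (fun _ => (1 / 2 : ℂ)) X.E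
      (fun ω => val (X.freeze (X.E \ X.rev P ω) ω) v k) := by
  unfold Pool.Agent.H77.Q1.val
  rw [Ec_sum]
  exact sum_congr rfl fun j _ => X.D_rev P _ _

/-- the boxes of the steps -/
lemma step_box {v : ℕ → ℤ × ℤ} {ρ : ℤ} {j : ℕ} (hρ : 0 ≤ ρ)
    (h : 32 * |(v (j + 1)).1 - (v j).1| ≤ ρ ∧ 32 * |(v (j + 1)).2 - (v j).2| ≤ ρ) :
    inB ((v j).1 - ρ / 4) ((v j).1 + ρ / 4) ((v j).2 - ρ / 4) ((v j).2 + ρ / 4) (v j) ∧
    inB ((v j).1 - ρ / 4) ((v j).1 + ρ / 4) ((v j).2 - ρ / 4) ((v j).2 + ρ / 4) (v (j + 1)) := by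
  obtain ⟨h1, h2⟩ := h
  have a1 := neg_abs_le ((v (j + 1)).1 - (v j).1)
  have a2 := le_abs_self ((v (j + 1)).1 - (v j).1)
  have a3 := neg_abs_le ((v (j + 1)).2 - (v j).2)
  have a4 := le_abs_self ((v (j + 1)).2 - (v j).2)
  unfold inB
  omega

/-- the corners at the vertices of the small boxes see only labels of the diamond -/
lemma inBx_dm {p z : ℤ × ℤ} {ρ : ℤ} (hρ : 2 ≤ ρ)
    (hz : Env.InBx (p.1 - ρ / 4) (p.1 + ρ / 4) (p.2 - ρ / 4) (p.2 + ρ / 4) z) : lab z ∈ Dm p ρ := by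
  have h1 := hz.1
  have h2 := lab_near z
  unfold inB at h1
  rw [mem_Dm]
  refine ⟨h2.1, ?_⟩
  rcases abs_cases ((lab z).1 - 2 * p.1) with h3 | h3 <;>
    rcases abs_cases ((lab z).2 - 2 * p.2) with h4 | h4 <;> omega

lemma sub_box {p : ℤ × ℤ} {ρ : ℤ} {A : Finset (ℤ × ℤ)} (hρ : 0 ≤ ρ) (h : Dm p ρ ⊆ A) :
    Bx (p.1 - ρ / 4) (p.1 + ρ / 4) (p.2 - ρ / 4) (p.2 + ρ / 4) ⊆ A :=
  (Bx_sub_Dm (by omega)).trans h

/-- trivial bound of a value -/
lemma val_le_mm {X : Env} (hX : PlaneK X) {v : ℕ → ℤ × ℤ} {k : ℕ} {ρ : ℤ} (h : Chn X.E v k ρ)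
    (hρ : 0 ≤ ρ) : ‖val X v k‖ ≤ k * mm (ρ / 2).toNat := by
  unfold Pool.Agent.H77.Q1.val
  have e : ((ρ / 2).toNat : ℤ) = ρ / 2 := Int.toNat_of_nonneg (by omega)
  refine (norm_sum_le_of_le (f := fun j => X.D (v j) (v (j + 1))) (n := fun _ => mm (ρ / 2).toNat)
    _ fun j hj => ?_).trans ?_
  · have hj' := mem_range.1 hj
    have hs := h.step j hj'
    have a1 := neg_abs_le ((v (j + 1)).1 - (v j).1)
    have a2 := le_abs_self ((v (j + 1)).1 - (v j).1)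
    have a3 := neg_abs_le ((v (j + 1)).2 - (v j).2)
    have a4 := le_abs_self ((v (j + 1)).2 - (v j).2)
    refine le_mm (p := v j) hX ?_ ?_ ?_
    · rw [e]; exact h.free_box (by omega) hj'.le
    · unfold InQ Qt
      rw [e]
      simp only [sub_self, abs_zero, mul_zero]
      omega
    · unfold InQ Qt
      rw [e]
      omega
  · rw [sum_const, card_range, nsmul_eq_mul]

/-- **Exploration up to a chain**, exact form. -/
theorem explore_raw {X : Env} {W : Finset (ℤ × ℤ)} {a : ℤ × ℤ} {N : ℤ} {v : ℕ → ℤ × ℤ} {k : ℕ}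
    {ρ m : ℤ} (hX : DEnvX X W) (hbox : X.E ⊆ Bx (a.1 - N) (a.1 + N) (a.2 - N) (a.2 + N))
    (hρ : 2 ≤ ρ) (hc : Chn X.E v k ρ) (hn : NearW X.E (v k) m) {B : ℝ} (hB : 0 ≤ B)
    (h : ∀ Y W', CL Y W' a N v k ρ m → Y.E ⊆ X.E → ‖val Y v k‖ ≤ B) :
    ‖val X v k‖ ≤ Pr X.E (Hit X v k ρ) * B + Pr X.E (HitE X v k ρ) * (k * mm (ρ / 2).toNat) := by
  classical
  set M : ℝ := k * mm (ρ / 2).toNat with hM
  have hM0 : 0 ≤ M := mul_nonneg (Nat.cast_nonneg _) (mm_nonneg _)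
  set P : ℤ × ℤ → Prop := HitP v k ρ with hP
  have key : ∀ ω, ω ⊆ X.E → ‖val (X.freeze (X.E \ X.rev P ω) ω) v k‖ ≤
      ind (Hit X v k ρ ω) * B + ind (HitE X v k ρ ω) * M := by
    intro ω hω
    set Z := X.freeze (X.E \ X.rev P ω) ω with hZ
    have hZE : Z.E = X.E \ X.rev P ω := by
      rw [hZ, Env.freeze_E]; exact inter_eq_right.2 sdiff_subset
    have hdisj : ∀ j ≤ k, Dm (v j) ρ ⊆ X.E \ X.rev P ω := by
      intro j hj l hl
      rw [mem_sdiff]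
      refine ⟨hc.free j hj hl, fun h1 => ?_⟩
      exact disjoint_left.1 (Env.rev_disj (P := P) (S := Dm (v j) ρ)
        fun z hz => ⟨j, hj, hz⟩) h1 hl
    have hchZ : Chn Z.E v k ρ := ⟨fun j hj => by rw [hZE]; exact hdisj j hj, hc.step⟩
    have hi0 := ind_nonneg (Hit X v k ρ ω)
    have hi1 := ind_nonneg (HitE X v k ρ ω)
    rcases lt_or_eq_of_le (Env.tau_le X P ω) with ht | ht
    · -- the path has come to the chain
      obtain ⟨j, hj, hjl⟩ := Env.of_tau ht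
      have hhit : Hit X v k ρ ω := ⟨_, ht, j, hj, hjl⟩
      by_cases hE : HitE X v k ρ ω
      · rw [ind_true hhit, ind_true hE, one_mul, one_mul]
        have := val_le_mm (planeK_freeze ⟨W, hX.toPlaneEnv⟩ (X.E \ X.rev P ω) ω) hchZ (by omega)
        linarith
      · rw [ind_true hhit, ind_false hE, one_mul, zero_mul, add_zero]
        have hP' : ∀ z z', lab z = lab z' → P z → P z' := by
          rintro z z' hz ⟨j, hj, h1⟩
          exact ⟨j, hj, by rw [← hz]; exact h1⟩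
        have hct := tip_mem hP' ht (hc.free j hj hjl)
        obtain ⟨Y, hY, hYE, hYc, -, hinc⟩ := hX.reroot_rev P hω hct
        have hYv : val Y v k = val Z v k := by
          unfold Pool.Agent.H77.Q1.val
          refine sum_congr rfl fun i hi => ?_
          have hi' := mem_range.1 hi
          have hb := step_box (by omega) (hc.step i hi')
          exact D_of_inc hinc (sub_box (by omega) (hdisj i hi'.le)) hb.1 hb.2
        have hYX : Y.E ⊆ X.E := by rw [hYE]; exact sdiff_subset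
        have hCL : CL Y (W ∪ (ω ∩ X.rev P ω)) a N v k ρ m := by
          refine ⟨hY, hYX.trans hbox, ⟨fun i hi => by rw [hYE]; exact hdisj i hi, hc.step⟩,
            ⟨⟨j, hj, by rw [hYc]; exact hjl⟩, ?_⟩, ?_⟩
          · intro i hi hi2
            apply hE
            rw [hYc] at hi2
            exact ⟨i, mem_range.2 (by omega), _, hi2, _, ht, rfl⟩
          · obtain ⟨l, h1, h2, h3, h4⟩ := hn
            exact ⟨l, h1, fun h5 => h2 (hYX h5), h3, h4⟩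
        rw [← hYv]
        exact h Y _ hCL hYX
    · -- the path is complete
      have h0 : val Z v k = 0 := by
        unfold Pool.Agent.H77.Q1.val
        refine sum_eq_zero fun i hi => ?_
        have hi' := mem_range.1 hi
        have hb := step_box (by omega) (hc.step i hi')
        refine Env.D_zero (fun z hz => ?_) hb.1 hb.2
        exact Env.rev_complete hω ht ⟨i, hi'.le, inBx_dm hρ hz⟩
      rw [h0, norm_zero]
      positivity
  rw [val_avg X P v k]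
  refine (Ec_half_norm key).trans (le_of_eq ?_)
  have e1 : Ex (fun _ : ℤ × ℤ => (1 / 2 : ℝ)) X.E (fun ω => ind (Hit X v k ρ ω)) =
      Pr X.E (Hit X v k ρ) := PrP_half _ _
  have e2 : Ex (fun _ : ℤ × ℤ => (1 / 2 : ℝ)) X.E (fun ω => ind (HitE X v k ρ ω)) =
      Pr X.E (HitE X v k ρ) := PrP_half _ _
  rw [Ex_add, Ex_smul', Ex_smul', e1, e2]

lemma card_ext (u : ℤ × ℤ) (ρ : ℤ) : #(Ext u ρ) ≤ 4 := by
  unfold Pool.Agent.H77.Q1.Ext
  exact card_le_four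

/-- **The path seldom meets the extreme labels.** -/
theorem Pr_hitE : ∃ δ : ℝ, 0 < δ ∧ δ < 1 ∧ ∀ (X : Env) (W : Finset (ℤ × ℤ)), DEnvX X W →
    ∀ (v : ℕ → ℤ × ℤ) (k : ℕ) (ρ : ℤ) (n : ℕ), (∀ j ≤ k, Free X.E (v j) (2 * ρ)) →
    (4 : ℤ) ^ n ≤ ρ - 2 → Pr X.E (HitE X v k ρ) ≤ 4 * (k + 1) * (1 - δ) ^ n := by
  obtain ⟨δ, h0, h1, h⟩ := visit_label
  refine ⟨δ, h0, h1, ?_⟩
  intro X W hX v k ρ n hF hn
  have hp : (0 : ℝ) ≤ (1 - δ) ^ n := pow_nonneg (by linarith) _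
  have hρ : 1 ≤ ρ := by
    have : (0 : ℤ) < 4 ^ n := by positivity
    omega
  refine (Pr_ex_le X.E (range (k + 1)) _).trans ?_
  refine (sum_le_card_nsmul _ _ (4 * (1 - δ) ^ n) fun j hj => ?_).trans (le_of_eq ?_)
  · have hj' : j ≤ k := by
      have := mem_range.1 hj
      omega
    refine (Pr_ex_le X.E (Ext (v j) ρ) _).trans ?_
    refine (sum_le_card_nsmul _ _ ((1 - δ) ^ n) fun l hl => ?_).trans ?_
    · have hl' := (mem_Ext hρ).1 hl
      have a1 := abs_nonneg (l.1 - 2 * (v j).1)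
      have a2 := abs_nonneg (l.2 - 2 * (v j).2)
      exact h X W hX (v j) l ρ n (hF j hj') (by omega) (by omega) hn
    · rw [nsmul_eq_mul]
      have : ((#(Ext (v j) ρ) : ℕ) : ℝ) ≤ 4 := by exact_mod_cast card_ext _ _
      exact mul_le_mul_of_nonneg_right this hp
  · rw [card_range, nsmul_eq_mul]
    push_cast
    ring

/-- **Exploration up to a chain.** -/
theorem explore (κ ε : ℝ) (A : ℕ) (hκ : 0 < κ) (hκ1 : κ < 1) (hε : 0 < ε) :
    ∃ N0 : ℕ, ∀ (N : ℕ) (X : Env) (W : Finset (ℤ × ℤ)) (a : ℤ × ℤ) (v : ℕ → ℤ × ℤ) (k : ℕ),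
      N0 ≤ N → DEnvX X W → X.E ⊆ Bx (a.1 - N) (a.1 + N) (a.2 - N) (a.2 + N) → k ≤ A →
      (∀ j ≤ k, Free X.E (v j) (2 * ⌊κ * N / 4⌋)) →
      (∀ j < k, 32 * |(v (j + 1)).1 - (v j).1| ≤ ⌊κ * N / 4⌋ ∧
        32 * |(v (j + 1)).2 - (v j).2| ≤ ⌊κ * N / 4⌋) →
      NearW X.E (v k) ⌊κ * N⌋ → ∀ B : ℝ, 0 ≤ B →
      (∀ Y W', CL Y W' a N v k ⌊κ * N / 4⌋ ⌊κ * N⌋ → Y.E ⊆ X.E → ‖val Y v k‖ ≤ B) →
      ‖val X v k‖ ≤ Pr X.E (Hit X v k ⌊κ * N / 4⌋) * B +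
        ε * recd mm N * (N : ℝ) ^ (2 / 3 : ℝ) := by
  obtain ⟨δ, h0, h1, h⟩ := Pr_hitE
  have hq0 : (0 : ℝ) < 4 * (A + 1) * (A + 1) := by positivity
  obtain ⟨n, hn⟩ := exists_pow_lt_of_lt_one (show 0 < ε / (4 * (A + 1) * (A + 1)) by positivity)
    (show 1 - δ < 1 by linarith)
  obtain ⟨N0, hN0⟩ := exists_nat_gt ((4 * (4 ^ n + 4)) / κ)
  refine ⟨N0, ?_⟩
  intro N X W a v k hN hX hbox hk hF hst hnear B hB hCL
  set ρ : ℤ := ⌊κ * N / 4⌋ with hρ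
  have hρn : (4 : ℤ) ^ n + 3 ≤ ρ := by
    rw [hρ, Int.le_floor]
    have e1 : (4 * (4 ^ n + 4)) / κ < N := hN0.trans_le (by exact_mod_cast hN)
    rw [div_lt_iff₀ hκ] at e1
    push_cast
    linarith
  have hpos : (0 : ℤ) < 4 ^ n := by positivity
  have hch : Chn X.E v k ρ := ⟨fun j hj => (Dm_sub_Bx (r := 2 * ρ) (by omega)).trans (hF j hj),
    hst⟩
  have h2 := explore_raw hX hbox (by omega) hch hnear hB hCL
  have h3 := h X W hX v k ρ n hF (by omega)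
  have hρN : ρ ≤ N := by
    have h4 : (ρ : ℝ) ≤ κ * N / 4 := Int.floor_le _
    have h5 : κ * N / 4 ≤ N := by
      have : (0 : ℝ) ≤ N := Nat.cast_nonneg _
      nlinarith
    exact_mod_cast h4.trans h5
  have e : ((ρ / 2).toNat : ℤ) = ρ / 2 := Int.toNat_of_nonneg (by omega)
  have hm1 : 1 ≤ (ρ / 2).toNat := by omega
  have hm2 : (ρ / 2).toNat ≤ N := by omega
  have h6 : mm (ρ / 2).toNat ≤ recd mm N * (N : ℝ) ^ (2 / 3 : ℝ) := by
    refine (le_recd mm hm1 hm2).trans (mul_le_mul_of_nonneg_left ?_ (recd_nonneg _ _))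
    exact Real.rpow_le_rpow (Nat.cast_nonneg _) (by exact_mod_cast hm2) (by norm_num)
  have hkA : (k : ℝ) ≤ A := by exact_mod_cast hk
  have hrP : 0 ≤ recd mm N * (N : ℝ) ^ (2 / 3 : ℝ) :=
    mul_nonneg (recd_nonneg _ _) (by positivity)
  have hpn : (0 : ℝ) ≤ (1 - δ) ^ n := pow_nonneg (by linarith) _
  have h7 : Pr X.E (HitE X v k ρ) * (k * mm (ρ / 2).toNat) ≤
      ε * recd mm N * (N : ℝ) ^ (2 / 3 : ℝ) := by
    have e1 : Pr X.E (HitE X v k ρ) ≤ 4 * (A + 1) * (1 - δ) ^ n := by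
      refine h3.trans (mul_le_mul_of_nonneg_right ?_ hpn)
      linarith
    have e2 : (k : ℝ) * mm (ρ / 2).toNat ≤ (A + 1) * (recd mm N * (N : ℝ) ^ (2 / 3 : ℝ)) :=
      mul_le_mul (by linarith) h6 (mm_nonneg _) (by positivity)
    calc Pr X.E (HitE X v k ρ) * (k * mm (ρ / 2).toNat)
        ≤ (4 * (A + 1) * (1 - δ) ^ n) * ((A + 1) * (recd mm N * (N : ℝ) ^ (2 / 3 : ℝ))) :=
          mul_le_mul e1 e2 (mul_nonneg (Nat.cast_nonneg _) (mm_nonneg _)) (by positivity)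
      _ = (4 * (A + 1) * (A + 1) * (1 - δ) ^ n) * (recd mm N * (N : ℝ) ^ (2 / 3 : ℝ)) := by ring
      _ ≤ ε * (recd mm N * (N : ℝ) ^ (2 / 3 : ℝ)) := by
          refine mul_le_mul_of_nonneg_right ?_ hrP
          have := (lt_div_iff₀ hq0).1 hn
          linarith
      _ = _ := by ring
  linarith

/-! ### The supremum -/

/-- the values of the class of the maximum principle -/
def SVals (κ : ℝ) (N : ℕ) : Set ℝ :=
  {r | ∃ (X : Env) (W : Finset (ℤ × ℤ)) (a : ℤ × ℤ) (u : ℕ → ℤ × ℤ) (k : ℕ),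
    CL X W a N u k ⌊κ * N / 4⌋ ⌊κ * N⌋ ∧ (k : ℝ) ≤ 2000 / κ ∧ r = ‖val X u k‖}

/-- **the supremum of the maximum principle** -/
noncomputable def Sup68 (κ : ℝ) (N : ℕ) : ℝ := sSup (SVals κ N)

lemma SVals_bdd {κ : ℝ} (hκ : 0 < κ) (N : ℕ) : BddAbove (SVals κ N) := by
  refine ⟨2000 / κ * mm (⌊κ * N / 4⌋ / 2).toNat, ?_⟩
  rintro r ⟨X, W, a, u, k, h, hk, rfl⟩
  have h1 := val_le_mm ⟨W, h.denv.toPlaneEnv⟩ h.chn (Int.floor_nonneg.2 (by positivity))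
  exact h1.trans (mul_le_mul_of_nonneg_right hk (mm_nonneg _))

lemma le_Sup68 {κ : ℝ} (hκ : 0 < κ) {N : ℕ} {X : Env} {W : Finset (ℤ × ℤ)} {a : ℤ × ℤ}
    {u : ℕ → ℤ × ℤ} {k : ℕ} (h : CL X W a N u k ⌊κ * N / 4⌋ ⌊κ * N⌋) (hk : (k : ℝ) ≤ 2000 / κ) :
    ‖val X u k‖ ≤ Sup68 κ N := le_csSup (SVals_bdd hκ N) ⟨X, W, a, u, k, h, hk, rfl⟩

lemma Sup68_nonneg (κ : ℝ) (N : ℕ) : 0 ≤ Sup68 κ N := by
  refine Real.sSup_nonneg ?_
  rintro r ⟨X, W, a, u, k, -, -, rfl⟩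
  exact norm_nonneg _

lemma Sup68_le {κ : ℝ} {N : ℕ} {M : ℝ} (hM : 0 ≤ M) (h : ∀ (X : Env) (W : Finset (ℤ × ℤ))
    (a : ℤ × ℤ) (u : ℕ → ℤ × ℤ) (k : ℕ), CL X W a N u k ⌊κ * N / 4⌋ ⌊κ * N⌋ →
    (k : ℝ) ≤ 2000 / κ → ‖val X u k‖ ≤ M) : Sup68 κ N ≤ M := by
  refine Real.sSup_le ?_ hM
  rintro r ⟨X, W, a, u, k, h1, h2, rfl⟩
  exact h X W a u k h1 h2

end Pool.Agent.H68.Q1
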