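import Mathlib
import Pool.Agent.H68.Q1.Explore
import Pool.Agent.H49.Perc.KArms

set_option autoImplicit false
open Finset hiding val

/-! # Barriers

`noarm_dual`, `noarm_open`: with probability at least `δ ^ #S` there is no arm of one colour in the
annuli of the set `S` (RSW + Harris). `confine`: without an arm a path stays in the ball. -/

namespace Pool.Agent.H68.Q1

open Pool.Agent.H75.Perc Pool.Agent.H75.TwoArm Pool.Agent.H75.Four Pool.Agent.H69.Q1 Pool.Agent.Q1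
open Pool.Agent.Q1.M6c Pool.Agent.H49.Perc
open Pool.Agent.H75.TwoArm.DecayAux (Pr_not Pr_compl)

lemma Pr_noarm_gen {E : Finset (ℤ × ℤ)} {T : Finset (ℤ × ℤ) → Finset (ℤ × ℤ)} {δ : ℝ}
    (h0 : 0 < δ) (hT : ∀ ω ω', ω ⊆ ω' → T ω' ⊆ T ω)
    (h1 : ∀ (x : ℤ × ℤ) (r : ℤ), 1 ≤ r → Pr E (fun ω => Arm1 x r (4 * r) (T ω)) ≤ 1 - δ)
    (S : Finset ((ℤ × ℤ) × ℤ)) (hS : ∀ p ∈ S, 1 ≤ p.2) :
    δ ^ #S ≤ Pr E (fun ω => ∀ p ∈ S, ¬ Arm1 p.1 p.2 (4 * p.2) (T ω)) := by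
  classical
  induction S using Finset.induction_on with
  | empty =>
    rw [card_empty, pow_zero, ← Pr_true E]
    exact Pr_mono fun ω _ _ p hp => absurd hp (notMem_empty _)
  | @insert a S ha ih =>
    have ih' := ih fun p hp => hS p (mem_insert_of_mem hp)
    have hA : Inc (fun ω => ¬ Arm1 a.1 a.2 (4 * a.2) (T ω)) := by
      intro ω ω' h h' h2
      exact h' (Arm1_inc _ _ _ _ _ (hT _ _ h) h2)
    have hB : Inc (fun ω => ∀ p ∈ S, ¬ Arm1 p.1 p.2 (4 * p.2) (T ω)) := by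
      intro ω ω' h h' p hp h2
      exact h' p hp (Arm1_inc _ _ _ _ _ (hT _ _ h) h2)
    have h2 := Pr_harris E hA hB
    have h3 : δ ≤ Pr E (fun ω => ¬ Arm1 a.1 a.2 (4 * a.2) (T ω)) := by
      rw [Pr_not]
      have := h1 a.1 a.2 (hS a (mem_insert_self _ _))
      linarith
    rw [card_insert_of_notMem ha, pow_succ, mul_comm]
    refine (mul_le_mul h3 ih' (by positivity) (Pr_nonneg _ _)).trans (h2.trans (Pr_mono ?_))
    rintro ω - ⟨h4, h5⟩ p hp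
    rcases mem_insert.1 hp with rfl | hp
    · exact h4
    · exact h5 p hp

/-- **Barriers of both colours.** -/
theorem noarm : ∃ δ : ℝ, 0 < δ ∧ δ < 1 ∧ ∀ (E : Finset (ℤ × ℤ)),
    (∀ e ∈ E, (e.1 + e.2) % 2 = 1) → ∀ (S : Finset ((ℤ × ℤ) × ℤ)), (∀ p ∈ S, 1 ≤ p.2) →
    δ ^ #S ≤ Pr E (fun ω => ∀ p ∈ S, ¬ Arm1 p.1 p.2 (4 * p.2) ω) ∧
    δ ^ #S ≤ Pr E (fun ω => ∀ p ∈ S, ¬ Arm1 p.1 p.2 (4 * p.2) (du E ω)) := by
  obtain ⟨δ, h0, h1, h⟩ := open_arm_decay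
  have h' : ∀ (E : Finset (ℤ × ℤ)), (∀ e ∈ E, (e.1 + e.2) % 2 = 1) → ∀ (x : ℤ × ℤ) (r : ℤ),
      1 ≤ r → Pr E (Arm1 x r (4 * r)) ≤ 1 - δ := by
    intro E hE x r hr
    have h2 := h E hE x r hr 1
    rw [pow_one, pow_one] at h2
    exact h2
  refine ⟨δ, h0, h1, fun E hE S hS => ⟨?_, ?_⟩⟩
  · rw [← Pr_compl E (fun ω => ∀ p ∈ S, ¬ Arm1 p.1 p.2 (4 * p.2) ω)]
    refine Pr_noarm_gen h0 (T := fun ω => E \ ω) (fun ω ω' hw => sdiff_subset_sdiff subset_rfl hw)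
      (fun x r hr => ?_) S hS
    rw [Pr_compl E (Arm1 x r (4 * r))]
    exact h' E hE x r hr
  · refine Pr_noarm_gen h0 (T := fun ω => du E ω) (fun ω ω' hw => du_anti hw)
      (fun x r hr => ?_) S hS
    rw [Pr_du E (Arm1 x r (4 * r))]
    refine h' _ ?_ x r hr
    intro e he
    obtain ⟨e', he', rfl⟩ := mem_map.1 he
    have := hE e' he'
    change (e'.1 + 1 + (e'.2 + 1)) % 2 = 1
    omega

/-- **A path without an arm stays in the ball.** -/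
lemma confine {η : Finset (ℤ × ℤ)} {x u g : ℤ × ℤ} {r M : ℤ} (hu1 : |u.1 - x.1| ≤ r)
    (hu2 : |u.2 - x.2| ≤ r) (hno : ¬ Arm1 x r M η) (h : Co η u g) :
    Co (η ∩ Bx (x.1 - M) (x.1 + M) (x.2 - M) (x.2 + M)) u g ∧ |g.1 - x.1| < M ∧
      |g.2 - x.2| < M := by
  have hin : ∀ y, Co η u y → |y.1 - x.1| < M ∧ |y.2 - x.2| < M := by
    intro y hy
    by_contra hc
    apply hno
    refine ⟨u, y, hu1, hu2, ?_, hy⟩
    rw [not_and_or, not_lt, not_lt] at hc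
    exact hc
  refine ⟨?_, hin g h⟩
  induction h with
  | refl => exact Co.refl _ _
  | @tail p q hp hpq ih =>
    refine ih.tail ⟨hpq.1, mem_inter.2 ⟨hpq.2, ?_⟩⟩
    have h1 := hin p hp
    have h2 := hin q (hp.tail hpq)
    have h3 := unit_cases hpq.1
    rw [abs_lt, abs_lt] at h1 h2
    rw [mem_Bx]
    simp only [Prod.fst_add, Prod.snd_add]
    omega

end Pool.Agent.H68.Q1
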