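import Mathlib
import Pool.Agent.H68.Q1.Bar

set_option autoImplicit false
open Finset hiding val

/-! # Rays

A straight segment from `z` in one of the four directions, up to distance `s` of a label outside `E`;
`w` = a vertex next to this label. `Ry.arm`: if the free box at the end of the ray is joined to both
colours of the walls by labels of `E` near `w`, the ray gives an arm in the sense of the gate lemma. -/

namespace Pool.Agent.H68.Q1

open Pool.Agent.H75.Perc Pool.Agent.H75.TwoArm Pool.Agent.H75.Four Pool.Agent.H69.Q1 Pool.Agent.Q1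
open Pool.Agent.Q1.M6c Pool.Agent.H49.Perc
open Pool.Agent.H77.Q1 (lbf ad_du)

/-- the points of a ray -/
def pt (z e : ℤ × ℤ) (t : ℤ) : ℤ × ℤ := (z.1 + t * e.1, z.2 + t * e.2)

/-- the label between `pt t` and `pt (t + 1)` -/
def lr (z e : ℤ × ℤ) (t : ℤ) : ℤ × ℤ := (2 * z.1 + (2 * t + 1) * e.1, 2 * z.2 + (2 * t + 1) * e.2)

/-- the side label at `pt t` -/
def sl (z e : ℤ × ℤ) (t : ℤ) : ℤ × ℤ := (2 * (z.1 + t * e.1) + e.2, 2 * (z.2 + t * e.2) + e.1)

/-- the face next to the label `lr t`, on the side of `sl t` -/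
def fs (z e : ℤ × ℤ) (t : ℤ) : ℤ × ℤ :=
  (z.1 + t * e.1 + (1 + e.1 + e.2) / 2, z.2 + t * e.2 + (1 + e.1 + e.2) / 2)

lemma pt_step {z e : ℤ × ℤ} (he : IsUnit4 e) (t : ℤ) :
    IsUnit4 (pt z e (t + 1) - pt z e t) ∧ pt z e t + pt z e (t + 1) = lr z e t := by
  unfold pt lr
  constructor
  · have : ((z.1 + (t + 1) * e.1, z.2 + (t + 1) * e.2) : ℤ × ℤ) - (z.1 + t * e.1, z.2 + t * e.2) =
        e := by
      refine Prod.ext ?_ ?_
      · simp only [Prod.fst_sub]; ring
      · simp only [Prod.snd_sub]; ring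
    rw [this]; exact he
  · refine Prod.ext ?_ ?_
    · simp only [Prod.fst_add]; ring
    · simp only [Prod.snd_add]; ring

lemma fs_step {z e : ℤ × ℤ} (he : IsUnit4 e) (t : ℤ) :
    IsUnit4 (fs z e (t + 1) - fs z e t) ∧ lbf (fs z e t) (fs z e (t + 1)) = sl z e (t + 1) := by
  unfold fs sl lbf
  constructor
  · have : ((z.1 + (t + 1) * e.1 + (1 + e.1 + e.2) / 2,
        z.2 + (t + 1) * e.2 + (1 + e.1 + e.2) / 2) : ℤ × ℤ) -
        (z.1 + t * e.1 + (1 + e.1 + e.2) / 2, z.2 + t * e.2 + (1 + e.1 + e.2) / 2) = e := by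
      refine Prod.ext ?_ ?_
      · simp only [Prod.fst_sub]; ring
      · simp only [Prod.snd_sub]; ring
    rw [this]; exact he
  · refine Prod.ext ?_ ?_
    · simp only [Prod.fst_sub, Prod.fst_add]
      rcases he with rfl | rfl | rfl | rfl <;> simp only <;> ring_nf <;> omega
    · simp only [Prod.snd_sub, Prod.snd_add]
      rcases he with rfl | rfl | rfl | rfl <;> simp only <;> ring_nf <;> omega

lemma fs_lr {z e : ℤ × ℤ} (he : IsUnit4 e) (t : ℤ) :
    ((lr z e t).1 + (lr z e t).2) % 2 = 1 ∧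
    (fs z e t = fi (zu (lr z e t)) ∨ fs z e t = fi (zv (lr z e t))) := by
  have ho : ((lr z e t).1 + (lr z e t).2) % 2 = 1 := by
    unfold lr
    rcases he with rfl | rfl | rfl | rfl <;> simp only <;> omega
  refine ⟨ho, ?_⟩
  have h1 : IsUnit4 ((fs z e t - (e.2, e.1)) - fs z e t) := by
    have : (fs z e t - (e.2, e.1)) - fs z e t = (-e.2, -e.1) := by
      refine Prod.ext ?_ ?_
      · simp only [Prod.fst_sub]; ring
      · simp only [Prod.snd_sub]; ring
    rw [this]
    unfold IsUnit4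
    rcases he with rfl | rfl | rfl | rfl <;> simp
  have h2 : lbf (fs z e t) (fs z e t - (e.2, e.1)) = lr z e t := by
    unfold lbf fs lr
    refine Prod.ext ?_ ?_
    · simp only [Prod.fst_sub, Prod.fst_add]
      rcases he with rfl | rfl | rfl | rfl <;> simp only <;> ring_nf <;> omega
    · simp only [Prod.snd_sub, Prod.snd_add]
      rcases he with rfl | rfl | rfl | rfl <;> simp only <;> ring_nf <;> omega
  rcases Pool.Agent.H33.Q1.faces_of_lbf ho h1 h2 with ⟨h3, -⟩ | ⟨h3, -⟩
  · exact Or.inl h3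
  · exact Or.inr h3

lemma co_ray {A : Finset (ℤ × ℤ)} {z e : ℤ × ℤ} (he : IsUnit4 e) {a b : ℤ} (hab : a ≤ b)
    (h : ∀ t, a ≤ t → t < b → lr z e t ∈ A) : Co A (pt z e a) (pt z e b) := by
  obtain ⟨n, rfl⟩ := Int.le.dest hab
  clear hab
  induction n with
  | zero => simpa using Co.refl A _
  | succ n ih =>
    have h1 := ih fun t h1 h2 => h t h1 (by push_cast; omega)
    have h2 := pt_step (z := z) he (a + n)
    have e1 : a + ((n + 1 : ℕ) : ℤ) = a + n + 1 := by push_cast; ring
    rw [e1]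
    exact h1.tail ⟨h2.1, by rw [h2.2]; exact h _ (by omega) (by push_cast; omega)⟩

lemma dco_ray {w : Finset (ℤ × ℤ)} {z e : ℤ × ℤ} (he : IsUnit4 e) {a b : ℤ} (hab : a ≤ b)
    (h : ∀ t, a < t → t ≤ b → sl z e t ∉ w) : DCo w (fs z e a) (fs z e b) := by
  obtain ⟨n, rfl⟩ := Int.le.dest hab
  clear hab
  induction n with
  | zero => simpa using DCo.refl w _
  | succ n ih =>
    have h1 := ih fun t h1 h2 => h t h1 (by push_cast; omega)
    have h2 := fs_step (z := z) he (a + n)
    have e1 : a + ((n + 1 : ℕ) : ℤ) = a + n + 1 := by push_cast; ring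
    rw [e1]
    refine h1.trans (DCo.step h2.1 ?_)
    have h3 := h2.2
    unfold lbf at h3
    rw [h3]
    exact h _ (by omega) (by push_cast; omega)

/-- the vertices of a box are joined in the box -/
lemma co_bx {a b c d : ℤ} {u v : ℤ × ℤ} (hu : inB a b c d u) (hv : inB a b c d v) :
    Co (Bx a b c d) u v := by
  have hor : ∀ u v : ℤ × ℤ, inB a b c d u → inB a b c d v → u.2 = v.2 → u.1 ≤ v.1 →
      Co (Bx a b c d) u v := by
    intro u v hu hv h1 h2
    have h3 := co_ray (A := Bx a b c d) (z := u) (e := (1, 0)) (Or.inl rfl)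
      (a := 0) (b := v.1 - u.1) (by omega) (fun t h3 h4 => by
        unfold inB at hu hv
        unfold lr
        rw [mem_Bx]
        simp only
        omega)
    have e1 : pt u (1, 0) 0 = u := by unfold pt; simp
    have e2 : pt u (1, 0) (v.1 - u.1) = v := by
      unfold pt
      refine Prod.ext ?_ ?_ <;> simp [h1]
    rwa [e1, e2] at h3
  have ver : ∀ u v : ℤ × ℤ, inB a b c d u → inB a b c d v → u.1 = v.1 → u.2 ≤ v.2 →
      Co (Bx a b c d) u v := by
    intro u v hu hv h1 h2
    have h3 := co_ray (A := Bx a b c d) (z := u) (e := (0, 1)) (Or.inr (Or.inl rfl))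
      (a := 0) (b := v.2 - u.2) (by omega) (fun t h3 h4 => by
        unfold inB at hu hv
        unfold lr
        rw [mem_Bx]
        simp only
        omega)
    have e1 : pt u (0, 1) 0 = u := by unfold pt; simp
    have e2 : pt u (0, 1) (v.2 - u.2) = v := by
      unfold pt
      refine Prod.ext ?_ ?_ <;> simp [h1]
    rwa [e1, e2] at h3
  have hm : inB a b c d (v.1, u.2) := by
    unfold inB at hu hv ⊢
    simp only
    omega
  have h1 : Co (Bx a b c d) u (v.1, u.2) := by
    rcases le_total u.1 v.1 with h | h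
    · exact hor _ _ hu hm rfl h
    · exact (hor _ _ hm hu rfl h).symm
  have h2 : Co (Bx a b c d) (v.1, u.2) v := by
    rcases le_total u.2 v.2 with h | h
    · exact ver _ _ hm hv rfl h
    · exact (ver _ _ hv hm rfl h).symm
  exact h1.trans h2

/-- the inner faces of a box are joined in the box -/
lemma dco_bx {w : Finset (ℤ × ℤ)} {a b c d : ℤ} (hw : ∀ l ∈ Bx a b c d, l ∉ w) {f g : ℤ × ℤ}
    (hf : Pool.Agent.H33.Q1.InF a b c d f) (hg : Pool.Agent.H33.Q1.InF a b c d g) :
    DCo w f g := by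
  unfold Pool.Agent.H33.Q1.InF at hf hg
  have hor : ∀ (i j : ℤ) (n : ℕ), a < i → i + n ≤ b → c < j → j ≤ d → DCo w (i, j) (i + n, j) := by
    intro i j n h1 h2 h3 h4
    induction n with
    | zero => simpa using DCo.refl w _
    | succ n ih =>
      refine (ih (by push_cast at h2; omega)).trans (DCo.step ?_ (hw _ ?_))
      · left
        refine Prod.ext ?_ ?_
        · simp only [Prod.fst_sub]; push_cast; ring
        · simp
      · rw [mem_Bx]
        simp only [Prod.fst_sub, Prod.snd_sub, Prod.fst_add, Prod.snd_add]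
        push_cast at h2 ⊢
        omega
  have ver : ∀ (i j : ℤ) (n : ℕ), a < i → i ≤ b → c < j → j + n ≤ d → DCo w (i, j) (i, j + n) := by
    intro i j n h1 h2 h3 h4
    induction n with
    | zero => simpa using DCo.refl w _
    | succ n ih =>
      refine (ih (by push_cast at h4; omega)).trans (DCo.step ?_ (hw _ ?_))
      · right; left
        refine Prod.ext ?_ ?_
        · simp
        · simp only [Prod.snd_sub]; push_cast; ring
      · rw [mem_Bx]
        simp only [Prod.fst_sub, Prod.snd_sub, Prod.fst_add, Prod.snd_add]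
        push_cast at h4 ⊢
        omega
  obtain ⟨f1, f2⟩ := f
  obtain ⟨g1, g2⟩ := g
  simp only at hf hg
  have h1 : DCo w (f1, f2) (g1, f2) := by
    rcases le_total f1 g1 with h | h
    · obtain ⟨n, rfl⟩ := Int.le.dest h
      exact hor _ _ _ (by omega) (by omega) (by omega) (by omega)
    · obtain ⟨n, rfl⟩ := Int.le.dest h
      exact (hor _ _ _ (by omega) (by omega) (by omega) (by omega)).symm
  have h2 : DCo w (g1, f2) (g1, g2) := by
    rcases le_total f2 g2 with h | h
    · obtain ⟨n, rfl⟩ := Int.le.dest h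
      exact ver _ _ _ (by omega) (by omega) (by omega) (by omega)
    · obtain ⟨n, rfl⟩ := Int.le.dest h
      exact (ver _ _ _ (by omega) (by omega) (by omega) (by omega)).symm
  exact h1.trans h2

/-- **A ray.** -/
structure Ry (E : Finset (ℤ × ℤ)) (z e : ℤ × ℤ) (s t0 : ℤ) (w : ℤ × ℤ) : Prop where
  he : IsUnit4 e
  hs : 100 ≤ s
  ht : 20 * s ≤ t0
  free : ∀ t, 0 ≤ t → t < t0 → Free E (pt z e t) s
  fp : Free E (pt z e t0) (s - 1)
  w1 : |w.1 - (pt z e t0).1| ≤ s
  w2 : |w.2 - (pt z e t0).2| ≤ s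

/-- the labels near `w` -/
noncomputable def Nw (w : ℤ × ℤ) (s : ℤ) : Finset (ℤ × ℤ) :=
  Bx (w.1 - (8 * s + 1)) (w.1 + (8 * s + 1)) (w.2 - (8 * s + 1)) (w.2 + (8 * s + 1))

/-- the free box at the end of the ray is joined to the closed walls near `w` -/
def SL (E W : Finset (ℤ × ℤ)) (c0 p w : ℤ × ℤ) (s : ℤ) : Prop :=
  ∃ f g, Pool.Agent.H33.Q1.InF (p.1 - (s - 1)) (p.1 + (s - 1)) (p.2 - (s - 1)) (p.2 + (s - 1)) f ∧
    Co (du (E ∩ Nw w s) ∅) f g ∧ DCo (E ∪ W) (fi c0) g

/-- the free box at the end of the ray is joined to the wired labels near `w` -/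
def SW (E W : Finset (ℤ × ℤ)) (c0 p w : ℤ × ℤ) (s : ℤ) : Prop :=
  ∃ f g, inB (p.1 - (s - 1)) (p.1 + (s - 1)) (p.2 - (s - 1)) (p.2 + (s - 1)) f ∧
    Co (E ∩ Nw w s) f g ∧ Co W (vx c0) g

/-- the cone of the direction `e` -/
def Cone (z e x : ℤ × ℤ) : Prop :=
  |(x.1 - z.1) * e.2 + (x.2 - z.2) * e.1| < (x.1 - z.1) * e.1 + (x.2 - z.2) * e.2

lemma cone_disj {z e f x : ℤ × ℤ} (he : IsUnit4 e) (hf : IsUnit4 f) (hef : e ≠ f)
    (h1 : Cone z e x) (h2 : Cone z f x) : False := by
  unfold Cone at h1 h2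
  rw [abs_lt] at h1 h2
  rcases he with rfl | rfl | rfl | rfl <;> rcases hf with rfl | rfl | rfl | rfl <;>
    simp only [mul_one, mul_zero, mul_neg, add_zero, zero_add, ne_eq, not_true_eq_false] at h1 h2 hef <;>
    omega

end Pool.Agent.H68.Q1
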