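import Mathlib
import Pool.Agent.H68.Q1.RayGeo

set_option autoImplicit false
open Finset hiding val

/-! # A bad ray is an arm -/

namespace Pool.Agent.H68.Q1

open Pool.Agent.H75.Perc Pool.Agent.H75.TwoArm Pool.Agent.H75.Four Pool.Agent.H69.Q1 Pool.Agent.Q1
open Pool.Agent.Q1.M6c Pool.Agent.H49.Perc
open Pool.Agent.H77.Q1 (lbf ad_du)

/-- **A ray whose end sees both colours gives an arm.** -/
theorem Ry.arm {E W : Finset (ℤ × ℤ)} {c0 z e w : ℤ × ℤ} {s t0 : ℤ} (hD : Dobr E W c0)
    (hr : Ry E z e s t0 w) (h1 : SL E W c0 (pt z e t0) w s) (h2 : SW E W c0 (pt z e t0) w s) :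
    ∃ T, Arm E W c0 z T ∧ ∀ x, Tc T x → x = z ∨ Cone z e x := by
  classical
  have he := hr.he
  have hs := hr.hs
  have ht := hr.ht
  have w1 := hr.w1
  have w2 := hr.w2
  rw [abs_le] at w1 w2
  set R : ℤ := 8 * s + 1 with hR
  have hNw : Nw w s = Bx (w.1 - R) (w.1 + R) (w.2 - R) (w.2 + R) := rfl
  -- entrance
  have hex : ∃ n : ℕ, inB (w.1 - R) (w.1 + R) (w.2 - R) (w.2 + R) (pt z e n) := by
    refine ⟨t0.toNat, ?_⟩
    rw [Int.toNat_of_nonneg (by omega)]
    unfold inB
    omega
  set n := Nat.find hex with hn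
  have hnin : inB (w.1 - R) (w.1 + R) (w.2 - R) (w.2 + R) (pt z e n) := Nat.find_spec hex
  have hnt : (n : ℤ) ≤ t0 := by
    have : n ≤ t0.toNat := Nat.find_min' hex (by
      rw [Int.toNat_of_nonneg (by omega)]
      unfold inB
      omega)
    omega
  have hmin : ∀ t : ℤ, 0 ≤ t → t < n → ¬ inB (w.1 - R) (w.1 + R) (w.2 - R) (w.2 + R) (pt z e t) := by
    intro t h3 h4 h5
    obtain ⟨k, rfl⟩ := Int.eq_ofNat_of_zero_le h3
    exact Nat.find_min hex (by omega) h5
  have hn0 : 0 < n := by
    rcases Nat.eq_zero_or_pos n with h0 | h0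
    · exfalso
      rw [h0] at hnin
      unfold inB pt at hnin
      unfold pt at w1 w2
      rcases he with rfl | rfl | rfl | rfl <;> simp only at hnin w1 w2 <;> push_cast at hnin <;>
        omega
    · exact h0
  have hin : ∀ t : ℤ, n ≤ t → t ≤ t0 →
      inB (w.1 - R) (w.1 + R) (w.2 - R) (w.2 + R) (pt z e t) ∧
      (t < t0 → lr z e t ∈ Nw w s ∧ sl z e t ∈ Nw w s) := by
    intro t h3 h4
    rw [hNw]
    unfold inB pt at hnin
    unfold pt at w1 w2
    refine ⟨?_, fun h5 => ⟨?_, ?_⟩⟩
    · unfold inB pt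
      rcases he with rfl | rfl | rfl | rfl <;> simp only at hnin w1 w2 ⊢ <;> omega
    · unfold lr
      rw [mem_Bx]
      rcases he with rfl | rfl | rfl | rfl <;> simp only at hnin w1 w2 ⊢ <;> omega
    · unfold sl
      rw [mem_Bx]
      rcases he with rfl | rfl | rfl | rfl <;> simp only at hnin w1 w2 ⊢ <;> omega
  have hlrE : ∀ t, 0 ≤ t → t < t0 → lr z e t ∈ E ∧ sl z e t ∈ E := by
    intro t h3 h4
    have h5 := hr.free t h3 h4
    unfold Free pt at h5
    refine ⟨h5 ?_, h5 ?_⟩
    · unfold lr
      rw [mem_Bx]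
      rcases he with rfl | rfl | rfl | rfl <;> simp only <;> omega
    · unfold sl
      rw [mem_Bx]
      rcases he with rfl | rfl | rfl | rfl <;> simp only <;> omega
  set p := pt z e t0 with hp
  have hboxT : Bx (p.1 - (s - 1)) (p.1 + (s - 1)) (p.2 - (s - 1)) (p.2 + (s - 1)) ⊆
      E ∩ Nw w s := by
    intro l hl
    refine mem_inter.2 ⟨hr.fp hl, ?_⟩
    rw [hNw]
    rw [mem_Bx] at hl ⊢
    omega
  set T : Finset (ℤ × ℤ) := (E ∩ Nw w s) ∪ (range n).image (fun t : ℕ => lr z e t) with hT
  have hEiT : E ∩ Nw w s ⊆ T := subset_union_left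
  have hlrT : ∀ t : ℤ, 0 ≤ t → t < t0 → lr z e t ∈ T := by
    intro t h3 h4
    by_cases h5 : t < n
    · obtain ⟨k, rfl⟩ := Int.eq_ofNat_of_zero_le h3
      exact mem_union_right _ (mem_image.2 ⟨k, mem_range.2 (by omega), rfl⟩)
    · exact hEiT (mem_inter.2 ⟨(hlrE t h3 h4).1, ((hin t (by omega) h4.le).2 h4).1⟩)
  have hTE : T ⊆ E := by
    intro l hl
    rcases mem_union.1 hl with h3 | h3
    · exact (mem_inter.1 h3).1
    · obtain ⟨t, ht', rfl⟩ := mem_image.1 h3
      have := mem_range.1 ht'
      exact (hlrE t (by omega) (by omega)).1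
  have hpt0 : pt z e 0 = z := by unfold pt; simp
  have hpin : inB (p.1 - (s - 1)) (p.1 + (s - 1)) (p.2 - (s - 1)) (p.2 + (s - 1)) p := by
    unfold inB; omega
  refine ⟨T, ⟨hTE, ?_, ?_⟩, ?_⟩
  · -- connection to the wired labels
    obtain ⟨f, g, h3, h4, h5⟩ := h2
    have k1 : Co T z p := by
      have := co_ray (A := T) (z := z) he (a := 0) (b := t0) (by omega) hlrT
      rwa [hpt0] at this
    have k2 : Co T p f := (co_bx hpin h3).mono (hboxT.trans hEiT)
    have k3 : Co T f g := h4.mono hEiT
    exact (((k1.trans k2).trans k3).mono subset_union_right).trans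
      (h5.symm.mono subset_union_left)
  · refine ⟨lr z e (n - 1 : ℤ), hlrT _ (by omega) (by omega), ?_, ?_⟩
    · -- the label separates
      have key : ∀ x, Co (W ∪ T.erase (lr z e (n - 1 : ℤ))) z x →
          ∃ t : ℤ, 0 ≤ t ∧ t < n ∧ x = pt z e t := by
        intro x hx
        induction hx with
        | refl => exact ⟨0, le_rfl, by omega, hpt0.symm⟩
        | @tail x y _ hxy ih =>
          obtain ⟨t, h3, h4, rfl⟩ := ih
          obtain ⟨h5, h6⟩ := hxy
          have h7 := unit_cases h5
          have h8 : pt z e t + y ∈ E := by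
            apply hr.free t h3 (by omega)
            rw [mem_Bx]
            simp only [Prod.fst_add, Prod.snd_add]
            omega
          rcases mem_union.1 h6 with h9 | h9
          · exact absurd h9 fun h10 => disjoint_left.1 hD.disj h8 h10
          · obtain ⟨h10, h11⟩ := mem_erase.1 h9
            rcases mem_union.1 h11 with h12 | h12
            · exfalso
              have h13 := (mem_inter.1 h12).2
              rw [hNw, mem_Bx] at h13
              simp only [Prod.fst_add, Prod.snd_add] at h13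
              apply hmin t h3 h4
              unfold inB
              omega
            · obtain ⟨t', ht', h13⟩ := mem_image.1 h12
              have h14 := mem_range.1 ht'
              have h15 : (t' : ℤ) ≠ n - 1 := by
                intro h16
                apply h10
                rw [← h13, h16]
              refine ⟨2 * t' + 1 - t, ?_, ?_, ?_⟩
              · unfold lr at h13
                rw [Prod.ext_iff] at h13
                unfold pt at h7 h13
                rcases he with rfl | rfl | rfl | rfl <;>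
                  simp only [Prod.fst_add, Prod.snd_add] at h7 h13 <;> omega
              · unfold lr at h13
                rw [Prod.ext_iff] at h13
                unfold pt at h7 h13
                rcases he with rfl | rfl | rfl | rfl <;>
                  simp only [Prod.fst_add, Prod.snd_add] at h7 h13 <;> omega
              · unfold lr at h13
                rw [Prod.ext_iff] at h13
                unfold pt at h13 ⊢
                rw [Prod.ext_iff]
                rcases he with rfl | rfl | rfl | rfl <;>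
                  simp only [Prod.fst_add, Prod.snd_add] at h13 ⊢ <;> omega
      intro hc
      obtain ⟨t, h3, h4, h5⟩ := key _ hc
      have h6 := out_root hD.root
      rw [h5] at h6
      have h7 := h6.far (hr.free t h3 (by omega))
      simp only [sub_self, abs_zero] at h7
      omega
    · -- the faces
      obtain ⟨f, g, h3, h4, h5⟩ := h1
      have hnot : ∀ l, l ∈ E ∩ Nw w s → l ∉ (E \ T) ∪ W := by
        intro l hl h6
        rcases mem_union.1 h6 with h7 | h7
        · exact (mem_sdiff.1 h7).2 (hEiT hl)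
        · exact disjoint_left.1 hD.disj (mem_inter.1 hl).1 h7
      have k1 : DCo ((E \ T) ∪ W) (fs z e (n - 1 : ℤ)) (fs z e (t0 - 1)) := by
        refine dco_ray he (by omega) fun t h6 h7 => hnot _ ?_
        exact mem_inter.2 ⟨(hlrE t (by omega) (by omega)).2,
          ((hin t (by omega) (by omega)).2 (by omega)).2⟩
      have k2 : DCo ((E \ T) ∪ W) (fs z e (t0 - 1)) f := by
        refine dco_bx (fun l hl => hnot l (hboxT hl)) ?_ h3
        unfold Pool.Agent.H33.Q1.InF fs
        rw [hp]
        unfold pt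
        rcases he with rfl | rfl | rfl | rfl <;> simp only <;> omega
      have k3 : DCo ((E \ T) ∪ W) f g := by
        refine ⟨E ∩ Nw w s, h4.mono ?_⟩
        intro l hl
        unfold du at hl ⊢
        rw [mem_map] at hl ⊢
        obtain ⟨l', hl', rfl⟩ := hl
        rw [sdiff_empty] at hl'
        exact ⟨l', mem_sdiff.2 ⟨hl', hnot l' hl'⟩, rfl⟩
      have k4 : DCo ((E \ T) ∪ W) g (fi c0) := by
        refine h5.symm.anti ?_
        intro l hl
        rcases mem_union.1 hl with h6 | h6
        · exact mem_union_left _ (mem_sdiff.1 h6).1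
        · exact mem_union_right _ h6
      have k5 := ((k1.trans k2).trans k3).trans k4
      rcases (fs_lr (z := z) he (n - 1 : ℤ)).2 with h6 | h6
      · left; rw [← h6]; exact k5
      · right; rw [← h6]; exact k5
  · -- the cone
    rintro x ⟨y, h3, h4⟩
    have h5 := unit_cases h3
    rcases mem_union.1 h4 with h6 | h6
    · right
      have h7 := (mem_inter.1 h6).2
      rw [hNw, mem_Bx] at h7
      unfold pt at hp
      rw [Prod.ext_iff] at hp
      unfold Cone
      rw [abs_lt]
      rcases he with rfl | rfl | rfl | rfl <;>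
        simp only [Prod.fst_add, Prod.snd_add] at hp h5 h7 ⊢ <;> omega
    · obtain ⟨t, ht', h7⟩ := mem_image.1 h6
      by_cases hxz : x = z
      · exact Or.inl hxz
      · right
        unfold lr at h7
        rw [Prod.ext_iff] at h7 hxz
        unfold Cone
        rw [abs_lt]
        rcases he with rfl | rfl | rfl | rfl <;>
          simp only [Prod.fst_add, Prod.snd_add] at h5 h7 hxz ⊢ <;> omega

/-- **Three rays are never all bad.** -/
theorem three_rays {E W : Finset (ℤ × ℤ)} {c0 z w1 w2 w3 : ℤ × ℤ} {s t1 t2 t3 : ℤ}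
    (hD : Dobr E W c0) (r1 : Ry E z (1, 0) s t1 w1) (r2 : Ry E z (0, 1) s t2 w2)
    (r3 : Ry E z (-1, 0) s t3 w3)
    (h1 : SL E W c0 (pt z (1, 0) t1) w1 s ∧ SW E W c0 (pt z (1, 0) t1) w1 s)
    (h2 : SL E W c0 (pt z (0, 1) t2) w2 s ∧ SW E W c0 (pt z (0, 1) t2) w2 s)
    (h3 : SL E W c0 (pt z (-1, 0) t3) w3 s ∧ SW E W c0 (pt z (-1, 0) t3) w3 s) : False := by
  obtain ⟨T1, a1, c1⟩ := r1.arm hD h1.1 h1.2
  obtain ⟨T2, a2, c2⟩ := r2.arm hD h2.1 h2.2
  obtain ⟨T3, a3, c3⟩ := r3.arm hD h3.1 h3.2
  have sep : ∀ {T T' : Finset (ℤ × ℤ)} {e f : ℤ × ℤ}, IsUnit4 e → IsUnit4 f → e ≠ f →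
      (∀ x, Tc T x → x = z ∨ Cone z e x) → (∀ x, Tc T' x → x = z ∨ Cone z f x) →
      Sepd T T' z := by
    intro T T' e f he hf hef k1 k2 x hx hx'
    rcases k1 x hx with h | h
    · exact h
    · rcases k2 x hx' with h' | h'
      · exact h'
      · exact absurd h' fun h'' => cone_disj he hf hef h h''
  exact gate hD a1 a2 a3 (sep r1.he r2.he (by simp) c1 c2) (sep r1.he r3.he (by simp) c1 c3)
    (sep r2.he r3.he (by simp) c2 c3)

end Pool.Agent.H68.Q1
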