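import Mathlib
import Pool.Agent.H68.Q1.RayArm

set_option autoImplicit false
open Finset hiding val

/-! # The barrier of a ray which sees only one colour -/

namespace Pool.Agent.H68.Q1

open Pool.Agent.H75.Perc Pool.Agent.H75.TwoArm Pool.Agent.H75.Four Pool.Agent.H69.Q1 Pool.Agent.Q1
open Pool.Agent.Q1.M6c Pool.Agent.H49.Perc
open Pool.Agent.H77.Q1 (Dm mem_Dm lbf ad_du)
open Pool.Agent.H75.TwoArm.DecayAux (Pr_not)

/-- the points of the tube of the ray -/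
def Tube (z e : ℤ × ℤ) (s t0 m : ℤ) (x : ℤ × ℤ) : Prop :=
  (∃ t, 0 ≤ t ∧ t ≤ t0 ∧ x = pt z e t) ∨
  (|x.1 - (pt z e t0).1| ≤ s - m ∧ |x.2 - (pt z e t0).2| ≤ s - m)

open Classical in
/-- the centres of the annuli of the barrier, with the inner radii -/
noncomputable def BS (z e w : ℤ × ℤ) (s t0 : ℤ) : Finset ((ℤ × ℤ) × ℤ) :=
  insert (w, 2 * s) ((range ((t0 / (s / 20)).toNat + 1)).image
    fun l : ℕ => (pt z e (l * (s / 20)), s / 8))

lemma card_BS (z e w : ℤ × ℤ) (s t0 : ℤ) : #(BS z e w s t0) ≤ (t0 / (s / 20)).toNat + 2 := by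
  classical
  unfold BS
  refine (card_insert_le _ _).trans ?_
  have := card_image_le (s := range ((t0 / (s / 20)).toNat + 1))
    (f := fun l : ℕ => (pt z e (l * (s / 20)), s / 8))
  rw [card_range] at this
  omega

variable {X : Env} {W : Finset (ℤ × ℤ)} {z e w : ℤ × ℤ} {s t0 m ρ : ℤ} {v : ℕ → ℤ × ℤ} {k : ℕ}

/-- the centre next to a point of the segment -/
lemma Ry.centre {E : Finset (ℤ × ℤ)} (hr : Ry E z e s t0 w) {t : ℤ} (h0 : 0 ≤ t) (h1 : t ≤ t0) :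
    ∃ t', (pt z e t', s / 8) ∈ BS z e w s t0 ∧ Free E (pt z e t') (s - 1) ∧
      |(pt z e t).1 - (pt z e t').1| ≤ s / 20 ∧ |(pt z e t).2 - (pt z e t').2| ≤ s / 20 := by
  classical
  have hs := hr.hs
  have he := hr.he
  set h := s / 20 with hh
  have hh5 : 5 ≤ h := by omega
  have hl0 : 0 ≤ t / h := Int.ediv_nonneg h0 (by omega)
  have hl1 : t / h * h ≤ t := Int.ediv_mul_le t (by omega)
  have hl2 : t < (t / h + 1) * h := Int.lt_ediv_add_one_mul_self t (by omega)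
  have hl3 : t / h ≤ t0 / h := Int.ediv_le_ediv (by omega) h1
  have e1 : (((t / h).toNat : ℕ) : ℤ) = t / h := Int.toNat_of_nonneg hl0
  have hl4 : 0 ≤ t / h * h := mul_nonneg hl0 (by omega)
  have hl5 : (t / h + 1) * h = t / h * h + h := by ring
  refine ⟨t / h * h, ?_, ?_, ?_, ?_⟩
  · unfold BS
    have e2 : (t / h).toNat < (t0 / h).toNat + 1 := by omega
    refine mem_insert_of_mem (mem_image.2 ⟨(t / h).toNat, mem_range.2 e2, ?_⟩)
    rw [e1]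
  · rcases lt_or_eq_of_le (hl1.trans h1) with h2 | h2
    · exact (hr.free _ hl4 h2).mono (by simp) (by simp)
    · rw [h2]; exact hr.fp
  · unfold pt
    generalize t / h * h = t' at *
    rw [abs_le]
    rcases he with rfl | rfl | rfl | rfl <;> simp only <;> omega
  · unfold pt
    generalize t / h * h = t' at *
    rw [abs_le]
    rcases he with rfl | rfl | rfl | rfl <;> simp only <;> omega

lemma dm_near {c p : ℤ × ℤ} {ρ : ℤ} (h : lab c ∈ Dm p ρ) :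
    (|(fi c).1 - p.1| ≤ ρ ∧ |(fi c).2 - p.2| ≤ ρ) ∧
    (|(vx c).1 - p.1| ≤ ρ ∧ |(vx c).2 - p.2| ≤ ρ) := by
  rw [mem_Dm] at h
  have h1 := lab_near c
  have h2 := h.2
  have a1 := neg_abs_le ((lab c).1 - 2 * p.1)
  have a2 := le_abs_self ((lab c).1 - 2 * p.1)
  have a3 := neg_abs_le ((lab c).2 - 2 * p.2)
  have a4 := le_abs_self ((lab c).2 - 2 * p.2)
  have a5 := abs_nonneg ((lab c).1 - 2 * p.1)
  have a6 := abs_nonneg ((lab c).2 - 2 * p.2)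
  refine ⟨⟨?_, ?_⟩, ?_, ?_⟩ <;> rw [abs_le] <;> omega

/-- **Closed walls not seen: open circuits stop the path.** -/
theorem Ry.nohit_L (hX : DEnvX X W) (hr : Ry X.E z e s t0 w) (hρ : 1 ≤ ρ) (h60 : 60 * ρ ≤ s)
    (hm : 2 * ρ + 2 ≤ m) (hv : ∀ j ≤ k, Tube z e s t0 m (v j))
    (hno : ¬ SL X.E W X.c0 (pt z e t0) w s) {ω : Finset (ℤ × ℤ)} (hω : ω ⊆ X.E)
    (hb : ∀ q ∈ BS z e w s t0, ¬ Arm1 q.1 q.2 (4 * q.2) (du X.E ω)) : ¬ Hit X v k ρ ω := by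
  classical
  have hs := hr.hs
  rintro ⟨i, -, j, hj, hl⟩
  obtain ⟨g, g1, g2, g3⟩ := hub_dual hX.dob (on_path hX.toPlaneEnv hω i).2
  obtain ⟨⟨n1, n2⟩, -⟩ := dm_near hl
  rcases hv j hj with ⟨t, ht0, ht1, hvt⟩ | ⟨hv1, hv2⟩
  · obtain ⟨t', k1, k2, k3, k4⟩ := hr.centre ht0 ht1
    rw [hvt] at n1 n2
    rw [abs_le] at n1 n2 k3 k4
    have h5 := confine (x := pt z e t') (r := s / 8) (M := 4 * (s / 8)) (by rw [abs_le]; omega)
      (by rw [abs_le]; omega) (hb _ k1) g1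
    have h6 := g3.far k2
    rcases h6 with h6 | h6
    · have := h5.2.1; omega
    · have := h5.2.2; omega
  · have w1 := hr.w1
    have w2 := hr.w2
    rw [abs_le] at n1 n2 hv1 hv2 w1 w2
    have h5 := confine (x := w) (r := 2 * s) (M := 4 * (2 * s)) (by rw [abs_le]; omega)
      (by rw [abs_le]; omega) (hb (w, 2 * s) (mem_insert_self _ _)) g1
    apply hno
    refine ⟨_, g, ?_, h5.1.mono ?_, g2⟩
    · unfold Pool.Agent.H33.Q1.InF
      omega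
    · intro l hl
      obtain ⟨h6, h7⟩ := mem_inter.1 hl
      unfold du at h6 ⊢
      rw [mem_map] at h6 ⊢
      obtain ⟨l', h8, rfl⟩ := h6
      refine ⟨l', ?_, rfl⟩
      rw [sdiff_empty, mem_inter]
      refine ⟨(mem_sdiff.1 h8).1, ?_⟩
      have ho := X.odd l' (mem_sdiff.1 h8).1
      unfold Nw
      rw [mem_Bx] at h7 ⊢
      change (_ ≤ l'.1 + 1 ∧ l'.1 + 1 ≤ _) ∧ (_ ≤ l'.2 + 1 ∧ l'.2 + 1 ≤ _) ∧ _ at h7
      omega

/-- **Wired labels not seen: closed circuits stop the path.** -/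
theorem Ry.nohit_W (hX : DEnvX X W) (hr : Ry X.E z e s t0 w) (hρ : 1 ≤ ρ) (h60 : 60 * ρ ≤ s)
    (hm : 2 * ρ + 2 ≤ m) (hv : ∀ j ≤ k, Tube z e s t0 m (v j))
    (hno : ¬ SW X.E W X.c0 (pt z e t0) w s) {ω : Finset (ℤ × ℤ)} (hω : ω ⊆ X.E)
    (hb : ∀ q ∈ BS z e w s t0, ¬ Arm1 q.1 q.2 (4 * q.2) ω) : ¬ Hit X v k ρ ω := by
  classical
  have hs := hr.hs
  rintro ⟨i, -, j, hj, hl⟩
  obtain ⟨g, g1, g2, g3⟩ := hub_open hX.dob (on_path hX.toPlaneEnv hω i).1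
  obtain ⟨-, n1, n2⟩ := dm_near hl
  rcases hv j hj with ⟨t, ht0, ht1, hvt⟩ | ⟨hv1, hv2⟩
  · obtain ⟨t', k1, k2, k3, k4⟩ := hr.centre ht0 ht1
    rw [hvt] at n1 n2
    rw [abs_le] at n1 n2 k3 k4
    have h5 := confine (x := pt z e t') (r := s / 8) (M := 4 * (s / 8)) (by rw [abs_le]; omega)
      (by rw [abs_le]; omega) (hb _ k1) g1
    have h6 := g3.far k2
    rcases h6 with h6 | h6
    · have := h5.2.1; omega
    · have := h5.2.2; omega
  · have w1 := hr.w1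
    have w2 := hr.w2
    rw [abs_le] at n1 n2 hv1 hv2 w1 w2
    have h5 := confine (x := w) (r := 2 * s) (M := 4 * (2 * s)) (by rw [abs_le]; omega)
      (by rw [abs_le]; omega) (hb (w, 2 * s) (mem_insert_self _ _)) g1
    apply hno
    refine ⟨_, g, ?_, h5.1.mono ?_, g2⟩
    · unfold inB
      omega
    · intro l hl
      obtain ⟨h6, h7⟩ := mem_inter.1 hl
      rw [mem_inter]
      refine ⟨hω h6, ?_⟩
      unfold Nw
      rw [mem_Bx] at h7 ⊢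
      omega

/-- **A ray which does not see both colours is missed with probability at least `δ ^ #BS`.** -/
theorem ray_prob : ∃ δ : ℝ, 0 < δ ∧ δ < 1 ∧ ∀ (X : Env) (W : Finset (ℤ × ℤ)) (z e w : ℤ × ℤ)
    (s t0 m ρ : ℤ) (v : ℕ → ℤ × ℤ) (k : ℕ), DEnvX X W → Ry X.E z e s t0 w → 1 ≤ ρ → 60 * ρ ≤ s →
    2 * ρ + 2 ≤ m → (∀ j ≤ k, Tube z e s t0 m (v j)) →
    ¬ (SL X.E W X.c0 (pt z e t0) w s ∧ SW X.E W X.c0 (pt z e t0) w s) →
    Pr X.E (Hit X v k ρ) ≤ 1 - δ ^ ((t0 / (s / 20)).toNat + 2) := by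
  classical
  obtain ⟨δ, h0, h1, h⟩ := noarm
  refine ⟨δ, h0, h1, ?_⟩
  intro X W z e w s t0 m ρ v k hX hr hρ h60 hm hv hno
  have hs := hr.hs
  have hS : ∀ p ∈ BS z e w s t0, 1 ≤ p.2 := by
    intro p hp
    unfold BS at hp
    rcases mem_insert.1 hp with rfl | hp
    · simp only; omega
    · obtain ⟨l, -, rfl⟩ := mem_image.1 hp
      simp only; omega
  obtain ⟨p1, p2⟩ := h X.E X.odd (BS z e w s t0) hS
  have hc : δ ^ ((t0 / (s / 20)).toNat + 2) ≤ δ ^ #(BS z e w s t0) :=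
    pow_le_pow_of_le_one h0.le h1.le (card_BS z e w s t0)
  have key : ∀ A : Finset (ℤ × ℤ) → Prop, δ ^ #(BS z e w s t0) ≤ Pr X.E A →
      (∀ ω, ω ⊆ X.E → A ω → ¬ Hit X v k ρ ω) →
      Pr X.E (Hit X v k ρ) ≤ 1 - δ ^ ((t0 / (s / 20)).toNat + 2) := by
    intro A hA hA'
    have h2 : Pr X.E (Hit X v k ρ) ≤ Pr X.E (fun ω => ¬ A ω) :=
      Pr_mono fun ω hω h3 h4 => hA' ω hω h4 h3
    rw [Pr_not] at h2
    linarith
  by_cases hL : SL X.E W X.c0 (pt z e t0) w s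
  · have hW : ¬ SW X.E W X.c0 (pt z e t0) w s := fun h2 => hno ⟨hL, h2⟩
    exact key _ p1 fun ω hω hb => hr.nohit_W hX hρ h60 hm hv hW hω hb
  · exact key _ p2 fun ω hω hb => hr.nohit_L hX hρ h60 hm hv hL hω hb

end Pool.Agent.H68.Q1
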