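import Mathlib
import Pool.Agent.H68.Q1.RayBar

set_option autoImplicit false
open Finset hiding val

/-! # The chain of a ray -/

namespace Pool.Agent.H68.Q1

open Pool.Agent.H75.Perc Pool.Agent.H75.TwoArm Pool.Agent.H75.Four Pool.Agent.H69.Q1 Pool.Agent.Q1
open Pool.Agent.Q1.M6c Pool.Agent.H49.Perc
open Pool.Agent.H77.Q1 (Dm mem_Dm NearW)

/-- move from `a` towards `b` by at most `τ` -/
def mv1 (a b τ : ℤ) : ℤ := a + max (-τ) (min τ (b - a))

/-- the two legs -/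
def legs (z p q : ℤ × ℤ) (σ : ℤ) (K : ℕ) (j : ℕ) : ℤ × ℤ :=
  if j ≤ K then (mv1 z.1 p.1 (j * σ), mv1 z.2 p.2 (j * σ))
  else (mv1 p.1 q.1 ((j - K : ℕ) * σ), mv1 p.2 q.2 ((j - K : ℕ) * σ))

lemma mv1_step (a b : ℤ) {τ τ' σ : ℤ} (h0 : 0 ≤ τ) (h1 : τ ≤ τ') (h2 : τ' ≤ τ + σ) :
    |mv1 a b τ' - mv1 a b τ| ≤ σ := by
  unfold mv1
  rw [abs_le]
  omega

lemma mv1_zero (a b : ℤ) : mv1 a b 0 = a := by
  unfold mv1
  omega

lemma mv1_end {a b τ : ℤ} (h1 : -τ ≤ b - a) (h2 : b - a ≤ τ) : mv1 a b τ = b := by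
  unfold mv1
  omega

lemma legs_step {z p q : ℤ × ℤ} {σ : ℤ} {K : ℕ} (hσ : 0 ≤ σ) (h1 : |p.1 - z.1| ≤ K * σ)
    (h2 : |p.2 - z.2| ≤ K * σ) (j : ℕ) :
    |(legs z p q σ K (j + 1)).1 - (legs z p q σ K j).1| ≤ σ ∧
    |(legs z p q σ K (j + 1)).2 - (legs z p q σ K j).2| ≤ σ := by
  rw [abs_le] at h1 h2
  unfold legs
  rcases lt_trichotomy j K with h | h | h
  · rw [if_pos (by omega : j + 1 ≤ K), if_pos h.le]
    have e0 : (0 : ℤ) ≤ j * σ := by positivity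
    have e1 : (((j + 1 : ℕ) : ℤ)) * σ = j * σ + σ := by push_cast; ring
    simp only
    rw [e1]
    exact ⟨mv1_step _ _ e0 (by omega) le_rfl, mv1_step _ _ e0 (by omega) le_rfl⟩
  · subst h
    rw [if_neg (by omega : ¬ j + 1 ≤ j), if_pos le_rfl]
    simp only
    rw [mv1_end (b := p.1) (by omega) (by omega), mv1_end (b := p.2) (by omega) (by omega)]
    have e1 : (((j + 1 - j : ℕ) : ℤ)) * σ = σ := by
      have : j + 1 - j = 1 := by omega
      rw [this]; simp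
    rw [e1]
    have k1 := mv1_step p.1 q.1 le_rfl hσ (by omega : σ ≤ 0 + σ)
    have k2 := mv1_step p.2 q.2 le_rfl hσ (by omega : σ ≤ 0 + σ)
    rw [mv1_zero] at k1 k2
    exact ⟨k1, k2⟩
  · rw [if_neg (by omega : ¬ j + 1 ≤ K), if_neg (by omega : ¬ j ≤ K)]
    have e0 : (0 : ℤ) ≤ ((j - K : ℕ) : ℤ) * σ := by positivity
    have e1 : (((j + 1 - K : ℕ) : ℤ)) * σ = ((j - K : ℕ) : ℤ) * σ + σ := by
      have : j + 1 - K = (j - K) + 1 := by omega
      rw [this]; push_cast; ring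
    simp only
    rw [e1]
    exact ⟨mv1_step _ _ e0 (by omega) le_rfl, mv1_step _ _ e0 (by omega) le_rfl⟩

lemma pt_diff {z e : ℤ × ℤ} (he : IsUnit4 e) (t t' : ℤ) :
    |(pt z e t).1 - (pt z e t').1| ≤ |t - t'| ∧ |(pt z e t).2 - (pt z e t').2| ≤ |t - t'| := by
  have h1 : (pt z e t).1 - (pt z e t').1 = (t - t') * e.1 := by unfold pt; ring
  have h2 : (pt z e t).2 - (pt z e t').2 = (t - t') * e.2 := by unfold pt; ring
  rw [h1, h2, abs_mul, abs_mul]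
  have h0 := abs_nonneg (t - t')
  rcases he with rfl | rfl | rfl | rfl <;> simp

/-- **The chain of a ray.** -/
theorem Ry.chain {E : Finset (ℤ × ℤ)} {z e w : ℤ × ℤ} {s t0 m ρ σ : ℤ} (hr : Ry E z e s t0 w)
    (hσ : 1 ≤ σ) (hσρ : 32 * σ ≤ ρ) (hm : 2 * ρ + 2 ≤ m) (hms : m ≤ s)
    (hl : ∃ l : ℤ × ℤ, (l.1 + l.2) % 2 = 1 ∧ l ∉ E ∧ |l.1 - 2 * w.1| ≤ 1 ∧ |l.2 - 2 * w.2| ≤ 1) :
    ∃ (k : ℕ) (v : ℕ → ℤ × ℤ), (k : ℤ) ≤ (t0 + s) / σ + 2 ∧ v 0 = z ∧
      (∀ j < k, 32 * |(v (j + 1)).1 - (v j).1| ≤ ρ ∧ 32 * |(v (j + 1)).2 - (v j).2| ≤ ρ) ∧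
      (∀ j ≤ k, Free E (v j) (2 * ρ)) ∧ (∀ j ≤ k, Tube z e s t0 m (v j)) ∧
      NearW E (v k) (m + 1) := by
  have he := hr.he
  have hs := hr.hs
  have ht := hr.ht
  have w1 := hr.w1
  have w2 := hr.w2
  rw [abs_le] at w1 w2
  set p := pt z e t0 with hp
  -- the two lengths
  have a0 : 0 ≤ t0 / σ := Int.ediv_nonneg (by omega) (by omega)
  have b0 : 0 ≤ s / σ := Int.ediv_nonneg (by omega) (by omega)
  have a2 : t0 < (t0 / σ + 1) * σ := Int.lt_ediv_add_one_mul_self t0 (by omega)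
  have b2 : s < (s / σ + 1) * σ := Int.lt_ediv_add_one_mul_self s (by omega)
  set K1 : ℕ := (t0 / σ).toNat + 1 with hK1
  set K2 : ℕ := (s / σ).toNat + 1 with hK2
  have c1 : (K1 : ℤ) = t0 / σ + 1 := by rw [hK1]; push_cast; rw [Int.toNat_of_nonneg a0]
  have c2 : (K2 : ℤ) = s / σ + 1 := by rw [hK2]; push_cast; rw [Int.toNat_of_nonneg b0]
  rw [← c1] at a2
  rw [← c2] at b2
  set q : ℤ × ℤ := (mv1 p.1 w.1 (s - m), mv1 p.2 w.2 (s - m)) with hq
  have hq1 : -(s - m) ≤ q.1 - p.1 ∧ q.1 - p.1 ≤ s - m := by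
    rw [hq]; unfold mv1; simp only; omega
  have hq2 : -(s - m) ≤ q.2 - p.2 ∧ q.2 - p.2 ≤ s - m := by
    rw [hq]; unfold mv1; simp only; omega
  have hq3 : -m ≤ w.1 - q.1 ∧ w.1 - q.1 ≤ m := by
    rw [hq]; unfold mv1; simp only; omega
  have hq4 : -m ≤ w.2 - q.2 ∧ w.2 - q.2 ≤ m := by
    rw [hq]; unfold mv1; simp only; omega
  have hpz : (-t0 ≤ p.1 - z.1 ∧ p.1 - z.1 ≤ t0) ∧ (-t0 ≤ p.2 - z.2 ∧ p.2 - z.2 ≤ t0) := by
    rw [hp]; unfold pt
    rcases he with rfl | rfl | rfl | rfl <;> simp only <;> omega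
  have hF : ∀ x, Tube z e s t0 m x → Free E x (2 * ρ) := by
    rintro x (⟨t, h0, h1, rfl⟩ | ⟨h1, h2⟩)
    · rcases lt_or_eq_of_le h1 with h3 | h3
      · refine (hr.free t h0 h3).mono ?_ ?_ <;> rw [sub_self, abs_zero] <;> omega
      · rw [h3]
        refine hr.fp.mono ?_ ?_ <;> rw [sub_self, abs_zero] <;> omega
    · exact hr.fp.mono (by omega) (by omega)
  have hT : ∀ j, Tube z e s t0 m (legs z p q σ K1 j) := by
    intro j
    unfold legs
    split_ifs with h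
    · left
      have e0 : (0 : ℤ) ≤ j * σ := by positivity
      refine ⟨min (j * σ) t0, by omega, by omega, ?_⟩
      generalize (j : ℤ) * σ = τ at *
      rw [hp]
      unfold mv1 pt
      rcases he with rfl | rfl | rfl | rfl <;> refine Prod.ext ?_ ?_ <;> simp only <;> omega
    · right
      have e0 : (0 : ℤ) ≤ ((j - K1 : ℕ) : ℤ) * σ := by positivity
      generalize ((j - K1 : ℕ) : ℤ) * σ = τ at *
      rw [← hp]
      unfold mv1
      simp only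
      rw [abs_le, abs_le]
      omega
  refine ⟨K1 + K2, legs z p q σ K1, ?_, ?_, ?_, fun j _ => hF _ (hT j), fun j _ => hT j, ?_⟩
  · have h1 : t0 / σ + s / σ ≤ (t0 + s) / σ := by
      apply Int.le_ediv_of_mul_le (by omega)
      have h2 := Int.ediv_mul_le t0 (show σ ≠ 0 by omega)
      have h3 := Int.ediv_mul_le s (show σ ≠ 0 by omega)
      have h4 : (t0 / σ + s / σ) * σ = t0 / σ * σ + s / σ * σ := by ring
      omega
    push_cast
    omega
  · unfold legs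
    rw [if_pos (Nat.zero_le _)]
    simp only [Nat.cast_zero, zero_mul, mv1_zero]
  · intro j _
    obtain ⟨h1, h2⟩ := legs_step (z := z) (p := p) (q := q) (σ := σ) (K := K1) (by omega)
      (by rw [abs_le]; omega) (by rw [abs_le]; omega) j
    omega
  · have hend : legs z p q σ K1 (K1 + K2) = q := by
      unfold legs
      have h1 : ¬ K1 + K2 ≤ K1 := by omega
      have h2 : K1 + K2 - K1 = K2 := by omega
      rw [if_neg h1, h2, mv1_end (b := q.1) (by omega) (by omega),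
        mv1_end (b := q.2) (by omega) (by omega)]
    rw [hend]
    obtain ⟨l, l1, l2, l3, l4⟩ := hl
    rw [abs_le] at l3 l4
    refine ⟨l, l1, l2, ?_, ?_⟩ <;> rw [abs_le] <;> omega

/-- **Existence of the ray in each direction.** -/
theorem exists_ry {E : Finset (ℤ × ℤ)} {z e a : ℤ × ℤ} {N d s : ℤ} (he : IsUnit4 e)
    (hs : 100 ≤ s) (hd : 21 * s + 1 ≤ d) (hbox : E ⊆ Bx (a.1 - N) (a.1 + N) (a.2 - N) (a.2 + N))
    (hz : Free E z d) : ∃ t0 w, Ry E z e s t0 w ∧ t0 ≤ 2 * N + 1 ∧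
      ∃ l : ℤ × ℤ, (l.1 + l.2) % 2 = 1 ∧ l ∉ E ∧ |l.1 - 2 * w.1| ≤ 1 ∧ |l.2 - 2 * w.2| ≤ 1 := by
  classical
  -- the point `z` is in the box
  have hz1 : ((2 * z.1 + 1, 2 * z.2) : ℤ × ℤ) ∈ E := by
    apply hz
    rw [mem_Bx]
    simp only
    omega
  have hz2 := hbox hz1
  rw [mem_Bx] at hz2
  simp only at hz2
  have hN : 0 ≤ N := by omega
  have hend : ¬ Free E (pt z e ((2 * N + 1).toNat : ℤ)) s := by
    intro h
    have h1 : ((2 * (pt z e ((2 * N + 1).toNat : ℤ)).1 + 1,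
        2 * (pt z e ((2 * N + 1).toNat : ℤ)).2) : ℤ × ℤ) ∈ E := by
      apply h
      rw [mem_Bx]
      simp only
      omega
    have h2 := hbox h1
    rw [mem_Bx, Int.toNat_of_nonneg (by omega)] at h2
    unfold pt at h2
    rcases he with rfl | rfl | rfl | rfl <;> simp only at h2 <;> omega
  have hex : ∃ n : ℕ, ¬ Free E (pt z e n) s := ⟨_, hend⟩
  set n := Nat.find hex with hn
  have hnf : ¬ Free E (pt z e n) s := Nat.find_spec hex
  have hmin : ∀ t : ℤ, 0 ≤ t → t < n → Free E (pt z e t) s := by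
    intro t h1 h2
    obtain ⟨k, rfl⟩ := Int.eq_ofNat_of_zero_le h1
    by_contra h3
    exact Nat.find_min hex (by omega) h3
  have hn1 : (n : ℤ) ≤ 2 * N + 1 := by
    have : n ≤ (2 * N + 1).toNat := Nat.find_min' hex hend
    omega
  have hn2 : d - s < n := by
    by_contra h
    apply hnf
    have h1 := pt_diff (z := z) he n 0
    have e0 : pt z e 0 = z := by unfold pt; simp
    rw [e0, sub_zero, abs_of_nonneg (by omega : (0 : ℤ) ≤ n)] at h1
    exact hz.mono (by omega) (by omega)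
  have hfp : Free E (pt z e n) (s - 1) := by
    have h1 := pt_diff (z := z) he n (n - 1)
    rw [show (n : ℤ) - (n - 1) = 1 by ring, abs_one] at h1
    exact (hmin (n - 1) (by omega) (by omega)).mono (by omega) (by omega)
  obtain ⟨l, hl1, hl2⟩ := not_subset.1 hnf
  rw [mem_Bx] at hl1
  refine ⟨n, (l.1 / 2, l.2 / 2), ⟨he, hs, by omega, hmin, hfp, ?_, ?_⟩, hn1, l, hl1.2.2, hl2, ?_, ?_⟩
  · rw [abs_le]; simp only; omega
  · rw [abs_le]; simp only; omega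
  · rw [abs_le]; simp only; omega
  · rw [abs_le]; simp only; omega

end Pool.Agent.H68.Q1
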