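import Mathlib
import Pool.Agent.H68.Q1.RayChain

set_option autoImplicit false
open Finset hiding val

/-! # RAY: a ray which is missed with probability bounded below, uniformly in the width `κ N` -/

namespace Pool.Agent.H68.Q1

open Pool.Agent.H75.Perc Pool.Agent.H75.TwoArm Pool.Agent.H75.Four Pool.Agent.H69.Q1 Pool.Agent.Q1
open Pool.Agent.Q1.M6c Pool.Agent.H49.Perc
open Pool.Agent.H77.Q1 (Dm mem_Dm NearW)

/-- **RAY.** -/
theorem ray (δ0 : ℝ) (hδ0 : 0 < δ0) (hδ1 : δ0 < 1) : ∃ c1 : ℝ, 0 < c1 ∧ c1 ≤ 1 ∧ ∀ κ : ℝ, 0 < κ →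
    κ < δ0 / 1000 → ∃ N0 : ℕ, ∀ (N : ℕ) (X : Env) (W : Finset (ℤ × ℤ)) (a z : ℤ × ℤ), N0 ≤ N →
    DEnvX X W → X.E ⊆ Bx (a.1 - N) (a.1 + N) (a.2 - N) (a.2 + N) → Free X.E z ⌊δ0 * N⌋ →
    ∃ (k : ℕ) (v : ℕ → ℤ × ℤ), (k : ℝ) ≤ 1000 / κ ∧ v 0 = z ∧
      (∀ j < k, 32 * |(v (j + 1)).1 - (v j).1| ≤ ⌊κ * N / 4⌋ ∧
        32 * |(v (j + 1)).2 - (v j).2| ≤ ⌊κ * N / 4⌋) ∧
      (∀ j ≤ k, Free X.E (v j) (2 * ⌊κ * N / 4⌋)) ∧ NearW X.E (v k) ⌊κ * N⌋ ∧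
      Pr X.E (Hit X v k ⌊κ * N / 4⌋) ≤ 1 - c1 := by
  obtain ⟨δ, h0, h1, h⟩ := ray_prob
  set J : ℕ := ⌈1650 / δ0⌉₊ + 2 with hJ
  refine ⟨δ ^ J, by positivity, pow_le_one₀ h0.le h1.le, ?_⟩
  intro κ hκ hκδ
  obtain ⟨N0, hN0⟩ := exists_nat_gt (10000 / κ)
  refine ⟨N0, ?_⟩
  intro N X W a z hN hX hbox hz
  -- the numbers
  have hx : 10000 < κ * N := by
    have e1 : 10000 / κ < N := hN0.trans_le (by exact_mod_cast hN)
    rw [div_lt_iff₀ hκ] at e1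
    linarith
  have hNp : (0 : ℝ) < N := by
    by_contra hc
    have : (N : ℝ) ≤ 0 := not_lt.1 hc
    nlinarith
  have hy : 1000 * (κ * N) < δ0 * N := by
    have : 1000 * κ < δ0 := by linarith
    nlinarith
  have hyN : δ0 * N ≤ N := by nlinarith
  set d : ℤ := ⌊δ0 * (N : ℝ)⌋ with hd
  set ρ : ℤ := ⌊κ * (N : ℝ) / 4⌋ with hρ
  set M : ℤ := ⌊κ * (N : ℝ)⌋ with hM
  have d1 : (d : ℝ) ≤ δ0 * N := Int.floor_le _
  have d2 : δ0 * N < d + 1 := Int.lt_floor_add_one _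
  have r1 : (ρ : ℝ) ≤ κ * N / 4 := Int.floor_le _
  have r2 : κ * N / 4 < ρ + 1 := Int.lt_floor_add_one _
  have m1 : (M : ℝ) ≤ κ * N := Int.floor_le _
  have m2 : κ * N < M + 1 := Int.lt_floor_add_one _
  set s : ℤ := (d - 1) / 21 with hs
  have hs1 : 21 * s + 1 ≤ d := by omega
  have hs2 : d ≤ 21 * s + 21 := by omega
  have hs3 : (d : ℝ) ≤ 21 * s + 21 := by exact_mod_cast hs2
  have hs4 : (21 : ℝ) * s + 1 ≤ d := by exact_mod_cast hs1
  have hρ1 : 1000 ≤ ρ := by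
    have : (1000 : ℝ) ≤ ρ := by linarith
    exact_mod_cast this
  have hs100 : 100 ≤ s := by
    have : (100 : ℝ) ≤ s := by linarith
    exact_mod_cast this
  have h60 : 60 * ρ ≤ s := by
    have : (60 : ℝ) * ρ ≤ s := by linarith
    exact_mod_cast this
  have hm : 2 * ρ + 2 ≤ M - 1 := by
    have : (2 : ℝ) * ρ + 2 ≤ M - 1 := by linarith
    exact_mod_cast this
  have hms : M - 1 ≤ s := by
    have : (M : ℝ) - 1 ≤ s := by linarith
    exact_mod_cast this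
  set σ : ℤ := ρ / 32 with hσ
  have hσ1 : 1 ≤ σ := by omega
  have hσ2 : 32 * σ ≤ ρ := by omega
  have hσ3 : ρ ≤ 32 * σ + 31 := by omega
  have hσ4 : (ρ : ℝ) ≤ 32 * σ + 31 := by exact_mod_cast hσ3
  -- the rays
  obtain ⟨t1, w1, ry1, k1, l1⟩ := exists_ry (e := (1, 0)) (Or.inl rfl) hs100 hs1 hbox hz
  obtain ⟨t2, w2, ry2, k2, l2⟩ := exists_ry (e := (0, 1)) (Or.inr (Or.inl rfl)) hs100 hs1 hbox hz
  obtain ⟨t3, w3, ry3, k3, l3⟩ := exists_ry (e := (-1, 0)) (Or.inr (Or.inr (Or.inl rfl))) hs100 hs1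
    hbox hz
  -- the end
  have key : ∀ (e w : ℤ × ℤ) (t0 : ℤ), Ry X.E z e s t0 w → t0 ≤ 2 * N + 1 →
      (∃ l : ℤ × ℤ, (l.1 + l.2) % 2 = 1 ∧ l ∉ X.E ∧ |l.1 - 2 * w.1| ≤ 1 ∧ |l.2 - 2 * w.2| ≤ 1) →
      ¬ (SL X.E W X.c0 (pt z e t0) w s ∧ SW X.E W X.c0 (pt z e t0) w s) →
      ∃ (k : ℕ) (v : ℕ → ℤ × ℤ), (k : ℝ) ≤ 1000 / κ ∧ v 0 = z ∧
      (∀ j < k, 32 * |(v (j + 1)).1 - (v j).1| ≤ ρ ∧ 32 * |(v (j + 1)).2 - (v j).2| ≤ ρ) ∧
      (∀ j ≤ k, Free X.E (v j) (2 * ρ)) ∧ NearW X.E (v k) M ∧ Pr X.E (Hit X v k ρ) ≤ 1 - δ ^ J := by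
    intro e w t0 ry kt lt hno
    obtain ⟨k, v, c1, c2, c3, c4, c5, c6⟩ := ry.chain hσ1 hσ2 hm hms lt
    have c7 := h X W z e w s t0 (M - 1) ρ v k hX ry (by omega) h60 hm c5 hno
    refine ⟨k, v, ?_, c2, c3, c4, ?_, c7.trans ?_⟩
    · -- the length of the chain
      have e0 : (k : ℤ) - 2 ≤ (t0 + s) / σ := by omega
      have e1 : ((k : ℤ) - 2) * σ ≤ t0 + s := by
        have := Int.ediv_mul_le (t0 + s) (show σ ≠ 0 by omega)
        have h3 : ((k : ℤ) - 2) * σ ≤ (t0 + s) / σ * σ :=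
          mul_le_mul_of_nonneg_right e0 (by omega)
        omega
      have e2 : ((k : ℝ) - 2) * σ ≤ t0 + s := by exact_mod_cast e1
      have e3 : (t0 : ℝ) ≤ 2 * N + 1 := by exact_mod_cast kt
      have e4 : (t0 : ℝ) + s ≤ 3 * N := by linarith
      have e5 : κ * N / 150 ≤ σ := by linarith
      by_contra hc
      rw [not_le, div_lt_iff₀ hκ] at hc
      have e6 : 998 / κ ≤ (k : ℝ) - 2 := by
        rw [div_le_iff₀ hκ]
        nlinarith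
      have e7 : 998 / κ * (κ * N / 150) ≤ ((k : ℝ) - 2) * σ :=
        mul_le_mul e6 e5 (by positivity) (le_trans (by positivity) e6)
      have e8 : 998 / κ * (κ * N / 150) = 998 / 150 * N := by field_simp
      rw [e8] at e7
      linarith
    · have : M - 1 + 1 = M := by ring
      rw [this] at c6
      exact c6
    · -- the power
      have e0 : (t0 / (s / 20)).toNat + 2 ≤ J := by
        rw [hJ]
        have f1 : (((t0 / (s / 20)).toNat : ℕ) : ℝ) ≤ 1650 / δ0 := by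
          have f2 : 0 ≤ t0 / (s / 20) := Int.ediv_nonneg (by have := ry.ht; omega) (by omega)
          have f3 : (((t0 / (s / 20)).toNat : ℕ) : ℤ) = t0 / (s / 20) := Int.toNat_of_nonneg f2
          have f4 : (((t0 / (s / 20)).toNat : ℕ) : ℝ) = ((t0 / (s / 20) : ℤ) : ℝ) := by
            exact_mod_cast congrArg (fun x : ℤ => (x : ℝ)) f3
          rw [f4]
          have f5 : t0 / (s / 20) * (s / 20) ≤ t0 := Int.ediv_mul_le _ (by omega)
          have f6 : ((t0 / (s / 20) : ℤ) : ℝ) * ((s / 20 : ℤ) : ℝ) ≤ t0 := by exact_mod_cast f5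
          have f7 : (s : ℝ) ≤ 20 * ((s / 20 : ℤ) : ℝ) + 19 := by
            have : s ≤ 20 * (s / 20) + 19 := by omega
            exact_mod_cast this
          have f8 : (0 : ℝ) ≤ ((t0 / (s / 20) : ℤ) : ℝ) := by exact_mod_cast f2
          have f9 : (t0 : ℝ) ≤ 3 * N := by
            have : (t0 : ℝ) ≤ 2 * N + 1 := by exact_mod_cast kt
            linarith
          have f10 : δ0 * N / 550 ≤ ((s / 20 : ℤ) : ℝ) := by linarith
          have f11 : ((t0 / (s / 20) : ℤ) : ℝ) * (δ0 * N / 550) ≤ 3 * N :=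
            (mul_le_mul_of_nonneg_left f10 f8).trans (f6.trans f9)
          rw [le_div_iff₀ hδ0]
          by_contra hc
          rw [not_le] at hc
          have f12 := mul_lt_mul_of_pos_right hc hNp
          nlinarith
        have f2 : (t0 / (s / 20)).toNat ≤ ⌈1650 / δ0⌉₊ := by
          exact_mod_cast f1.trans (Nat.le_ceil _)
        omega
      have e1 := pow_le_pow_of_le_one h0.le h1.le e0
      linarith
  by_cases b1 : SL X.E W X.c0 (pt z (1, 0) t1) w1 s ∧ SW X.E W X.c0 (pt z (1, 0) t1) w1 s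
  · by_cases b2 : SL X.E W X.c0 (pt z (0, 1) t2) w2 s ∧ SW X.E W X.c0 (pt z (0, 1) t2) w2 s
    · by_cases b3 : SL X.E W X.c0 (pt z (-1, 0) t3) w3 s ∧ SW X.E W X.c0 (pt z (-1, 0) t3) w3 s
      · exact absurd (three_rays hX.dob ry1 ry2 ry3 b1 b2 b3) id
      · exact key _ _ _ ry3 k3 l3 b3
    · exact key _ _ _ ry2 k2 l2 b2
  · exact key _ _ _ ry1 k1 l1 b1

end Pool.Agent.H68.Q1
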